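import Pool.Agent.Lib_helper63.AP.N
import Pool.Agent.Lib_helper16.KP.Resid

/-!
# Comparison of the eigenvalues modulo the maximal ideal
-/

set_option autoImplicit false

namespace Pool.Agent.PG

open Polynomial
open Pool.Agent.TT Pool.Agent.TB Pool.Agent.TF Pool.Agent.RF Pool.Agent.TBL Pool.Agent.TU
open Pool.Agent.KT Pool.Agent.KP Pool.Agent.AP

theorem pg_sub {C : Type} [NormedField C] [IsUltrametricDist C] (x y : C) :
    ‖x - y‖ ≤ max ‖x‖ ‖y‖ := by
  rw [sub_eq_add_neg]
  refine (IsUltrametricDist.norm_add_le_max _ _).trans ?_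
  rw [norm_neg]

/-- A multiset as a family. -/
theorem pg_family {C : Type} (J : ℕ) (s : Multiset C) (h : Multiset.card s = J) :
    ∃ f : Fin J → C, Finset.univ.val.map f = s := by
  obtain ⟨l, rfl⟩ := Quot.exists_rep s
  have h' : l.length = J := h
  subst h'
  refine ⟨l.get, ?_⟩
  rw [Fin.univ_val_map, List.ofFn_get]
  rfl

theorem fpoly_congr' {C : Type} [CommRing C] {E E' : ℕ → C} {d : ℕ}
    (h : ∀ j ≤ d, E j = E' j) : fpoly E d = fpoly E' d := by
  unfold fpoly
  apply Finset.sum_congr rfl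
  intro j hj
  rw [Finset.mem_range] at hj
  rw [h j (by omega)]

theorem fpoly_coeff' {C : Type} [CommRing C] (E : ℕ → C) (d l : ℕ) :
    (fpoly E d).coeff l = if l ≤ d then E (d - l) else 0 := by
  classical
  unfold fpoly
  rw [finsetSum_coeff]
  simp only [coeff_C_mul, coeff_X_pow, mul_ite, mul_one, mul_zero]
  split_ifs with h
  · rw [Finset.sum_eq_single (d - l)]
    · rw [if_pos (by omega)]
    · intro j hj hne
      rw [Finset.mem_range] at hj
      rw [if_neg (by omega)]
    · intro hnot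
      exact absurd (Finset.mem_range.mpr (by omega)) hnot
  · apply Finset.sum_eq_zero
    intro j _
    rw [if_neg (by omega)]

/-- A root of a monic polynomial with integral coefficients is integral. -/
theorem pg_root {C : Type} [NormedField C] [IsUltrametricDist C] {F : C[X]} (hF : F.Monic)
    (hF1 : ∀ l, ‖F.coeff l‖ ≤ 1) {x : C} (hx : F.eval x = 0) : ‖x‖ ≤ 1 := by
  by_contra hno
  rw [not_le] at hno
  set d := F.natDegree with hd
  have hd0 : 0 < d := by
    rcases Nat.eq_zero_or_pos d with h | h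
    · exfalso
      have h1 : F = 1 := hF.natDegree_eq_zero.mp (hd ▸ h)
      rw [h1, eval_one] at hx
      exact one_ne_zero hx
    · exact h
  rw [eval_eq_sum_range, ← hd, Finset.sum_range_succ] at hx
  have hlead : F.coeff d = 1 := hF.coeff_natDegree
  rw [hlead, one_mul] at hx
  have h2 : ‖x ^ d‖ = ‖∑ l ∈ Finset.range d, F.coeff l * x ^ l‖ := by
    rw [eq_neg_of_add_eq_zero_right hx, norm_neg]
  have h3 : ‖∑ l ∈ Finset.range d, F.coeff l * x ^ l‖ ≤ ‖x‖ ^ (d - 1) := by
    refine IsUltrametricDist.norm_sum_le_of_forall_le_of_nonneg (by positivity) fun l hl => ?_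
    rw [norm_mul, norm_pow]
    calc ‖F.coeff l‖ * ‖x‖ ^ l ≤ 1 * ‖x‖ ^ (d - 1) :=
          mul_le_mul (hF1 l) (pow_le_pow_right₀ hno.le
            (by rw [Finset.mem_range] at hl; omega)) (by positivity) zero_le_one
      _ = ‖x‖ ^ (d - 1) := one_mul _
  rw [← h2, norm_pow] at h3
  have h4 : ‖x‖ ^ (d - 1) < ‖x‖ ^ d := pow_lt_pow_right₀ hno (by omega)
  exact absurd h3 (not_le.mpr h4)

section red

variable {p : ℕ} [hp : Fact p.Prime] {k : Type} [Field k]

/-- Two families with polynomials that are congruent modulo the maximal ideal. -/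
theorem pg_red (red : nv ℂ_[p] →+* k) (hred : ∀ x : nv ℂ_[p], ‖(x : ℂ_[p])‖ < 1 → red x = 0)
    {J : ℕ} (a b : Fin J → nv ℂ_[p])
    (h : ∀ l, ‖(∏ i, (X - C (a i : ℂ_[p]))).coeff l - (∏ i, (X - C (b i : ℂ_[p]))).coeff l‖ < 1) :
    Finset.univ.val.map (fun i => red (a i)) = Finset.univ.val.map (fun i => red (b i)) := by
  have h1 : ∀ c : Fin J → nv ℂ_[p],
      (∏ i, (X - C (c i : ℂ_[p]))) = (∏ i, (X - C (c i))).map (nv ℂ_[p]).subtype := by
    intro c
    rw [Polynomial.map_prod]
    apply Finset.prod_congr rfl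
    intro i _
    rw [Polynomial.map_sub, Polynomial.map_X, Polynomial.map_C]
    rfl
  have h2 : (∏ i, (X - C (a i))).map red = (∏ i, (X - C (b i))).map red := by
    ext l
    rw [Polynomial.coeff_map, Polynomial.coeff_map]
    apply red_eq red hred
    have h3 := h l
    rw [h1 a, h1 b, Polynomial.coeff_map, Polynomial.coeff_map] at h3
    exact h3
  rw [Polynomial.map_prod, Polynomial.map_prod] at h2
  simp only [Polynomial.map_sub, Polynomial.map_X, Polynomial.map_C] at h2
  have h3 := congrArg Polynomial.roots h2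
  rw [Polynomial.roots_prod _ _ (Finset.prod_ne_zero_iff.mpr fun i _ => X_sub_C_ne_zero _),
    Polynomial.roots_prod _ _ (Finset.prod_ne_zero_iff.mpr fun i _ => X_sub_C_ne_zero _)] at h3
  simp only [Polynomial.roots_X_sub_C] at h3
  rw [Multiset.bind_singleton, Multiset.bind_singleton] at h3
  exact h3

end red

open Classical in
/-- **The comparison.** -/
theorem pg_core {p : ℕ} [hp : Fact p.Prime] {D d r J : ℕ} (hDJ : D ≤ J) (hrJ : r * d ≤ J)
    (α : Fin D → ℂ_[p]) (β : Fin d → ℂ_[p]) {s E s0 E0 : ℕ → ℂ_[p]}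
    (hE : NRec s E J) (hs : ∀ l, 1 ≤ l → l ≤ J → s l = ∑ i, α i ^ l) (hE0 : NRec s0 E0 J)
    {δ : ℝ} (hδ0 : 0 ≤ δ) (hδ : δ < ‖((J.factorial : ℕ) : ℂ_[p])‖)
    (hs01 : ∀ l, 1 ≤ l → l ≤ J → ‖s0 l‖ ≤ 1)
    (hs0 : ∀ l, 1 ≤ l → l ≤ J → ‖s0 l - (r : ℂ_[p]) * ∑ i, β i ^ l‖ ≤ δ)
    (hint : ∀ j ≤ J, ‖E j‖ ≤ 1) (hEE0 : ∀ j ≤ J, ‖E j - E0 j‖ < 1) (P : ℂ_[p] → Prop)
    (hP0 : ¬ P 0) (hP : ∀ x y : ℂ_[p], ‖x‖ ≤ 1 → ‖y‖ ≤ 1 → ‖x - y‖ < 1 → P x → P y) :
    (Finset.univ.filter fun i => P (α i)).card =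
        r * (Finset.univ.filter fun i => P (β i)).card ∧
      ∀ i, ‖α i‖ = 1 → ∃ i', ‖α i - β i'‖ < 1 := by
  obtain ⟨red, hred, -⟩ := res_exists p (AlgebraicClosure (ZMod p))
  -- the two families
  obtain ⟨α', hα'⟩ := pg_family J (Finset.univ.val.map α + Multiset.replicate (J - D) 0) (by
    rw [Multiset.card_add, Multiset.card_map, Finset.card_val, Finset.card_univ, Fintype.card_fin,
      Multiset.card_replicate]
    omega)
  obtain ⟨β', hβ'⟩ := pg_family J (r • Finset.univ.val.map β + Multiset.replicate (J - r * d) 0) (by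
    rw [Multiset.card_add, Multiset.card_nsmul, Multiset.card_map, Finset.card_val,
      Finset.card_univ, Fintype.card_fin, Multiset.card_replicate]
    omega)
  have hsum : ∀ (n : ℕ) (c : Fin n → ℂ_[p]) (l : ℕ),
      ∑ i, c i ^ l = ((Finset.univ.val.map c).map fun x => x ^ l).sum := by
    intro n c l
    rw [Multiset.map_map]
    rfl
  have hαs : ∀ l, 1 ≤ l → ∑ i, α' i ^ l = ∑ i, α i ^ l := by
    intro l hl
    rw [hsum, hα', Multiset.map_add, Multiset.sum_add, ← hsum, Multiset.map_replicate,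
      zero_pow (by omega), Multiset.sum_replicate, smul_zero, add_zero]
  have hβs : ∀ l, 1 ≤ l → ∑ i, β' i ^ l = (r : ℂ_[p]) * ∑ i, β i ^ l := by
    intro l hl
    rw [hsum, hβ', Multiset.map_add, Multiset.sum_add, Multiset.map_nsmul, Multiset.sum_nsmul,
      ← hsum, Multiset.map_replicate, zero_pow (by omega), Multiset.sum_replicate, smul_zero,
      add_zero, nsmul_eq_mul]
  obtain ⟨Ea, hEa, hPa⟩ := block_N1 α'
  obtain ⟨Eb, hEb, hPb⟩ := block_N1 β'
  have hEaE : ∀ j ≤ J, Ea j = E j := block_N2 (hEa J) hE fun l h1 h2 => by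
    rw [hαs l h1, hs l h1 h2]
  have hint0 : ∀ j ≤ J, ‖E0 j‖ ≤ 1 := by
    intro j hj
    have h1 : E0 j = E j - (E j - E0 j) := by ring
    rw [h1]
    refine (pg_sub _ _).trans (max_le (hint j hj) (hEE0 j hj).le)
  have hEb0 : ∀ j ≤ J, ‖Eb j - E0 j‖ < 1 := by
    intro j hj
    have hJ1 : ‖((J.factorial : ℕ) : ℂ_[p])‖ ≤ 1 := IsUltrametricDist.norm_natCast_le_one _ _
    have h1 := block_N3 hδ0 (hEb J) hE0 (fun l h1 h2 => by
      rw [hβs l h1]
      have h3 : (r : ℂ_[p]) * ∑ i, β i ^ l = s0 l - (s0 l - (r : ℂ_[p]) * ∑ i, β i ^ l) := by ring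
      rw [h3]
      exact (pg_sub _ _).trans (max_le (hs01 l h1 h2) ((hs0 l h1 h2).trans (hδ.le.trans hJ1))))
      hint0 (fun l h1 h2 => by
        rw [hβs l h1, norm_sub_rev]
        exact hs0 l h1 h2) j hj
    by_contra hno
    rw [not_lt] at hno
    have h2 : ‖((J.factorial : ℕ) : ℂ_[p])‖ ≤ ‖((j.factorial : ℕ) : ℂ_[p])‖ := by
      obtain ⟨t, ht⟩ := Nat.factorial_dvd_factorial hj
      rw [ht, Nat.cast_mul, norm_mul]
      calc ‖((j.factorial : ℕ) : ℂ_[p])‖ * ‖((t : ℕ) : ℂ_[p])‖ ≤
            ‖((j.factorial : ℕ) : ℂ_[p])‖ * 1 :=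
            mul_le_mul_of_nonneg_left (IsUltrametricDist.norm_natCast_le_one _ t)
              (norm_nonneg _)
        _ = _ := mul_one _
    have h3 : ‖((j.factorial : ℕ) : ℂ_[p])‖ ≤
        ‖((j.factorial : ℕ) : ℂ_[p])‖ * ‖Eb j - E0 j‖ :=
      le_mul_of_one_le_right (norm_nonneg _) hno
    linarith
  -- the roots are integral
  have hβ'1 : ∀ i, ‖β' i‖ ≤ 1 := by
    intro i
    have hmon : (∏ i, (X - C (β' i))).Monic :=
      Polynomial.monic_prod_of_monic _ _ fun i _ => Polynomial.monic_X_sub_C _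
    refine pg_root hmon ?_ (x := β' i) ?_
    · intro l
      rw [← hPb, fpoly_coeff']
      split_ifs
      · have h1 : Eb (J - l) = (Eb (J - l) - E0 (J - l)) + E0 (J - l) := by ring
        rw [h1]
        exact (IsUltrametricDist.norm_add_le_max _ _).trans
          (max_le (hEb0 _ (by omega)).le (hint0 _ (by omega)))
      · rw [norm_zero]
        exact zero_le_one
    · rw [Polynomial.eval_prod]
      apply Finset.prod_eq_zero (Finset.mem_univ i)
      rw [Polynomial.eval_sub, Polynomial.eval_X, Polynomial.eval_C, sub_self]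
  have hα'1 : ∀ i, ‖α' i‖ ≤ 1 := by
    intro i
    have hmon : (∏ i, (X - C (α' i))).Monic :=
      Polynomial.monic_prod_of_monic _ _ fun i _ => Polynomial.monic_X_sub_C _
    refine pg_root hmon ?_ (x := α' i) ?_
    · intro l
      rw [← hPa, fpoly_coeff']
      split_ifs
      · rw [hEaE _ (by omega)]
        exact hint _ (by omega)
      · rw [norm_zero]
        exact zero_le_one
    · rw [Polynomial.eval_prod]
      apply Finset.prod_eq_zero (Finset.mem_univ i)
      rw [Polynomial.eval_sub, Polynomial.eval_X, Polynomial.eval_C, sub_self]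
  let a : Fin J → nv ℂ_[p] := fun i => ⟨α' i, hα'1 i⟩
  let b : Fin J → nv ℂ_[p] := fun i => ⟨β' i, hβ'1 i⟩
  have hab : Finset.univ.val.map (fun i => red (a i)) = Finset.univ.val.map (fun i => red (b i)) := by
    apply pg_red red hred
    intro l
    show ‖(∏ i, (X - C (α' i))).coeff l - (∏ i, (X - C (β' i))).coeff l‖ < 1
    rw [← hPa, ← hPb, fpoly_coeff', fpoly_coeff']
    split_ifs
    · rw [hEaE _ (by omega)]
      have h1 : E (J - l) - Eb (J - l) = (E (J - l) - E0 (J - l)) - (Eb (J - l) - E0 (J - l)) := by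
        ring
      rw [h1]
      exact lt_of_le_of_lt (pg_sub _ _)
        (max_lt (hEE0 _ (by omega)) (hEb0 _ (by omega)))
    · rw [sub_self, norm_zero]
      exact zero_lt_one
  -- the predicate in terms of the residue
  let PK : AlgebraicClosure (ZMod p) → Prop := fun z => ∃ x : nv ℂ_[p], red x = z ∧ P x
  have hclose : ∀ x : nv ℂ_[p], P (x : ℂ_[p]) ↔ PK (red x) := by
    intro x
    constructor
    · intro h1
      exact ⟨x, rfl, h1⟩
    · rintro ⟨x', h1, h2⟩
      refine hP x' x x'.2 x.2 ?_ h2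
      have h3 : red (x' - x) = 0 := by rw [map_sub, h1, sub_self]
      exact (red_zero_iff red hred _).mp h3
  have hcount : ∀ c : Fin J → nv ℂ_[p],
      Multiset.countP P (Finset.univ.val.map fun i => (c i : ℂ_[p])) =
        Multiset.countP PK (Finset.univ.val.map fun i => red (c i)) := by
    intro c
    rw [Multiset.countP_map, Multiset.countP_map]
    congr 1
    apply Multiset.filter_congr
    intro i _
    exact hclose (c i)
  have hca : Multiset.countP P (Finset.univ.val.map α') =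
      (Finset.univ.filter fun i => P (α i)).card := by
    rw [hα', Multiset.countP_add, Multiset.countP_map]
    have h1 : Multiset.countP P (Multiset.replicate (J - D) (0 : ℂ_[p])) = 0 := by
      rw [Multiset.countP_eq_zero]
      intro x hx
      rw [Multiset.eq_of_mem_replicate hx]
      exact hP0
    rw [h1, add_zero]
    rfl
  have hcb : Multiset.countP P (Finset.univ.val.map β') =
      r * (Finset.univ.filter fun i => P (β i)).card := by
    rw [hβ', Multiset.countP_add, Multiset.countP_nsmul, Multiset.countP_map]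
    have h1 : Multiset.countP P (Multiset.replicate (J - r * d) (0 : ℂ_[p])) = 0 := by
      rw [Multiset.countP_eq_zero]
      intro x hx
      rw [Multiset.eq_of_mem_replicate hx]
      exact hP0
    rw [h1, add_zero]
    rfl
  refine ⟨?_, ?_⟩
  · rw [← hca, ← hcb]
    exact (hcount a).trans ((congrArg _ hab).trans (hcount b).symm)
  · intro i hi1
    have h1 : α i ∈ Finset.univ.val.map α' := by
      rw [hα', Multiset.mem_add]
      exact Or.inl (Multiset.mem_map.mpr ⟨i, Finset.mem_univ_val i, rfl⟩)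
    obtain ⟨i', -, hi'⟩ := Multiset.mem_map.mp h1
    have h2 : red (a i') ∈ Finset.univ.val.map (fun i => red (a i)) :=
      Multiset.mem_map_of_mem _ (Finset.mem_univ_val i')
    rw [hab] at h2
    obtain ⟨i'', -, h3⟩ := Multiset.mem_map.mp h2
    have h3' : ‖α i - β' i''‖ < 1 := by
      have h5 : red (a i' - b i'') = 0 := by rw [map_sub, h3, sub_self]
      have h6 := (red_zero_iff red hred _).mp h5
      have h7 : ((a i' - b i'' : nv ℂ_[p]) : ℂ_[p]) = α i - β' i'' := by
        rw [← hi']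
        rfl
      rwa [h7] at h6
    have h4 : β' i'' ∈ Finset.univ.val.map β' := Multiset.mem_map_of_mem _ (Finset.mem_univ_val i'')
    rw [hβ', Multiset.mem_add] at h4
    rcases h4 with h4 | h4
    · obtain ⟨i₃, -, h5⟩ := Multiset.mem_map.mp (Multiset.mem_of_mem_nsmul h4)
      exact ⟨i₃, by rw [h5]; exact h3'⟩
    · exfalso
      rw [Multiset.eq_of_mem_replicate h4, sub_zero, hi1] at h3'
      exact lt_irrefl _ h3'

end Pool.Agent.PG
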