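import Pool.Agent.Lib_helper62.AP.Defs

/-!
# Newton's recursion for the powers of a power series
-/

set_option autoImplicit false

namespace Pool.Agent.PG

open Pool.Agent.AP

section

variable {C : Type} [CommRing C]

/-- The defect of Newton's recursion. -/
noncomputable def dd (s : ℕ → C) (E : PowerSeries C) : PowerSeries C :=
  PowerSeries.X * PowerSeries.derivative C E + (PowerSeries.mk fun r => if r = 0 then 0 else s r) * E

theorem dd_zero (s : ℕ → C) (E : PowerSeries C) : PowerSeries.coeff 0 (dd s E) = 0 := by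
  unfold dd
  rw [map_add, PowerSeries.coeff_zero_X_mul, PowerSeries.coeff_zero_eq_constantCoeff_apply, map_mul,
    PowerSeries.constantCoeff_mk, if_pos rfl, zero_mul, add_zero]

theorem dd_succ (s : ℕ → C) (E : PowerSeries C) (j : ℕ) : PowerSeries.coeff (j + 1) (dd s E) =
    ((j + 1 : ℕ) : C) * PowerSeries.coeff (j + 1) E +
      ∑ i ∈ Finset.range (j + 1), s (i + 1) * PowerSeries.coeff (j - i) E := by
  unfold dd
  rw [map_add, PowerSeries.coeff_succ_X_mul, PowerSeries.coeff_derivative, PowerSeries.coeff_mul,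
    Finset.Nat.sum_antidiagonal_eq_sum_range_succ (fun a b => PowerSeries.coeff a
      (PowerSeries.mk fun r => if r = 0 then 0 else s r) * PowerSeries.coeff b E),
    Finset.sum_range_succ']
  simp only [PowerSeries.coeff_mk]
  rw [if_pos trivial, zero_mul, add_zero]
  congr 1
  · push_cast
    ring
  · apply Finset.sum_congr rfl
    intro i _
    rw [if_neg (Nat.succ_ne_zero i), Nat.add_sub_add_right]

theorem nrec_iff (s : ℕ → C) (E : PowerSeries C) (J : ℕ) :
    NRec s (fun j => PowerSeries.coeff j E) J ↔
      PowerSeries.coeff 0 E = 1 ∧ ∀ j ≤ J, PowerSeries.coeff j (dd s E) = 0 := by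
  constructor
  · rintro ⟨h1, h2⟩
    refine ⟨h1, ?_⟩
    intro j hj
    rcases j with _ | j
    · exact dd_zero s E
    · have h3 := h2 (j + 1) (by omega) hj
      rw [dd_succ, h3, Nat.add_sub_cancel, neg_add_cancel]
  · rintro ⟨h1, h2⟩
    refine ⟨h1, ?_⟩
    intro j hj1 hj
    obtain ⟨j, rfl⟩ : ∃ j', j = j' + 1 := ⟨j - 1, by omega⟩
    have h3 := h2 (j + 1) hj
    rw [dd_succ] at h3
    rw [Nat.add_sub_cancel]
    exact eq_neg_of_add_eq_zero_left h3

theorem nrec_mul {s s' : ℕ → C} {E E' : PowerSeries C} {J : ℕ}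
    (h : NRec s (fun j => PowerSeries.coeff j E) J)
    (h' : NRec s' (fun j => PowerSeries.coeff j E') J) :
    NRec (fun l => s l + s' l) (fun j => PowerSeries.coeff j (E * E')) J := by
  rw [nrec_iff] at h h' ⊢
  refine ⟨?_, ?_⟩
  · have h1 := h.1
    have h2 := h'.1
    rw [PowerSeries.coeff_zero_eq_constantCoeff_apply] at h1 h2 ⊢
    rw [map_mul, h1, h2, one_mul]
  · intro j hj
    have h1 : dd (fun l => s l + s' l) (E * E') = E' * dd s E + E * dd s' E' := by
      have h3 : (PowerSeries.mk fun r => if r = 0 then (0 : C) else s r + s' r) =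
          (PowerSeries.mk fun r => if r = 0 then (0 : C) else s r) +
          (PowerSeries.mk fun r => if r = 0 then (0 : C) else s' r) := by
        ext r
        rw [map_add, PowerSeries.coeff_mk, PowerSeries.coeff_mk, PowerSeries.coeff_mk]
        split_ifs
        · rw [add_zero]
        · rfl
      have h4 : PowerSeries.derivative C (E * E') =
          E * PowerSeries.derivative C E' + E' * PowerSeries.derivative C E := by
        rw [Derivation.leibniz, smul_eq_mul, smul_eq_mul]
      unfold dd
      rw [h3, h4]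
      ring
    rw [h1, map_add, PowerSeries.coeff_mul, PowerSeries.coeff_mul, Finset.sum_eq_zero,
      Finset.sum_eq_zero, add_zero]
    · rintro ⟨a, b⟩ hab
      have hab' := Finset.HasAntidiagonal.mem_antidiagonal.mp hab
      simp only at hab' ⊢
      rw [h'.2 b (by omega), mul_zero]
    · rintro ⟨a, b⟩ hab
      have hab' := Finset.HasAntidiagonal.mem_antidiagonal.mp hab
      simp only at hab' ⊢
      rw [h.2 b (by omega), mul_zero]

theorem nrec_congr {s s' E : ℕ → C} {J : ℕ} (h : NRec s E J) (hs : ∀ l, 1 ≤ l → s l = s' l) :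
    NRec s' E J := by
  refine ⟨h.1, ?_⟩
  intro j h1 h2
  rw [h.2 j h1 h2]
  congr 1
  apply Finset.sum_congr rfl
  intro i _
  rw [hs (i + 1) (by omega)]

theorem nrec_pow {s : ℕ → C} {E : PowerSeries C} {J : ℕ}
    (h : NRec s (fun j => PowerSeries.coeff j E) J) (r : ℕ) :
    NRec (fun l => (r : C) * s l) (fun j => PowerSeries.coeff j (E ^ r)) J := by
  induction r with
  | zero =>
    refine ⟨?_, ?_⟩
    · simp only
      rw [pow_zero, PowerSeries.coeff_one, if_pos rfl]
    · intro j h1 _
      simp only
      rw [pow_zero, PowerSeries.coeff_one, if_neg (by omega), mul_zero, eq_comm, neg_eq_zero]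
      apply Finset.sum_eq_zero
      intro i _
      rw [Nat.cast_zero, zero_mul, zero_mul]
  | succ r ih =>
    rw [pow_succ]
    refine nrec_congr (nrec_mul ih h) fun l _ => ?_
    rw [Nat.cast_succ, add_mul, one_mul]

theorem nrec_map {C' : Type} [CommRing C'] (f : C →+* C') {s E : ℕ → C} {J : ℕ} (h : NRec s E J) :
    NRec (fun l => f (s l)) (fun j => f (E j)) J := by
  refine ⟨by simp only; rw [h.1, map_one], ?_⟩
  intro j h1 h2
  have h3 := congrArg f (h.2 j h1 h2)
  rw [map_mul, map_natCast, map_neg, map_sum] at h3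
  simp only
  rw [h3]
  congr 1
  apply Finset.sum_congr rfl
  intro i _
  rw [map_mul]

end

end Pool.Agent.PG
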