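import Pool.Agent.Lib_helper35.PG.ConjB
import Pool.Agent.Lib_helper99.PG.Pow2
import Pool.Agent.Lib_helper50.PG.LF2
import Pool.Agent.Lib_helper46.PG.Tate
import Pool.Agent.Lib_helper89.PG.Core
import Pool.Agent.Lib_helper89.PG.NPow
import Pool.Agent.Lib_helper99.PG.Down
import Pool.Agent.Lib_helper35.AP.FG

/-!
# Coverings with a group of prime power order: the assembly
-/

set_option autoImplicit false

namespace Pool.Agent.PG

open NumberField Topology Polynomial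
open Pool.Agent.TT Pool.Agent.TB Pool.Agent.TF Pool.Agent.RF Pool.Agent.TBL Pool.Agent.TU
open Pool.Agent.KT Pool.Agent.KP Pool.Agent.AP

section fields

variable {K : Type} [Field K] [Algebra K Qbar]

/-- The residue symbol is in every subring that contains `ζ`. -/
theorem pg_symbol_mem {F : Type} [Field F] [Fintype F] (m : ℕ) (ζ : 𝓞 K) (φ : 𝓞 K →+* F) (y : F)
    (R : Subring Qbar) (hζ : algebraMap K Qbar ζ ∈ R) :
    algebraMap K Qbar ((residueSymbol m ζ φ y : 𝓞 K) : K) ∈ R := by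
  have h1 : algebraMap K Qbar ((residueSymbol m ζ φ y : 𝓞 K) : K) =
      emb K (residueSymbol m ζ φ y) := rfl
  rw [h1]
  unfold residueSymbol
  rw [map_sum]
  apply sum_mem
  intro j _
  split_ifs
  · rw [map_pow]
    exact pow_mem hζ _
  · rw [map_zero]
    exact zero_mem R

/-- The twisted sums are in every subring that contains `ζ` and the eigenvalues. -/
theorem pg_twisted_mem {F : Type} [Field F] [Fintype F] (m : ℕ) (ζ : 𝓞 K) (φ : 𝓞 K →+* F) {s : ℕ}
    (S : Fin s → TowerStratum K) (ε : ∀ i, (Fin (S i).M → F) → Multiset Qbar) (R : Subring Qbar)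
    (hζ : algebraMap K Qbar ζ ∈ R) (hε : ∀ i x, ∀ w ∈ ε i x, w ∈ R) :
    twistedSum m ζ φ S ε ∈ R := by
  unfold twistedSum
  apply sum_mem
  intro i _
  apply mul_mem (intCast_mem R _)
  apply sum_mem
  intro x _
  apply mul_mem
  · have h1 : ∀ a b : 𝓞 K, algebraMap K Qbar ((a * b : 𝓞 K) : K) =
        algebraMap K Qbar (a : K) * algebraMap K Qbar (b : K) := by
      intro a b
      exact map_mul (emb K) a b
    rw [h1]
    apply mul_mem
    · exact pg_symbol_mem m ζ φ _ R hζ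
    · apply pg_symbol_mem 1 1 φ _ R
      have h2 : algebraMap K Qbar ((1 : 𝓞 K) : K) = 1 := map_one (emb K)
      rw [h2]
      exact one_mem R
  · exact multiset_sum_mem _ (hε i x)

end fields

/-- The powers of near elements are near. -/
theorem pg_pow_near {C : Type} [NormedField C] [IsUltrametricDist C] {x b : C} (hx : ‖x‖ ≤ 1)
    (hb : ‖b‖ ≤ 1) (h : ‖x - b‖ < 1) (n : ℕ) : ‖x ^ n - b ^ n‖ < 1 := by
  rw [← (Commute.all x b).geom_sum₂_mul, norm_mul]
  apply mul_lt_one_of_nonneg_of_lt_one_right _ (norm_nonneg _) h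
  refine IsUltrametricDist.norm_sum_le_of_forall_le_of_nonneg zero_le_one fun i _ => ?_
  rw [norm_mul, norm_pow, norm_pow]
  exact mul_le_one₀ (pow_le_one₀ (norm_nonneg _) hx) (by positivity)
    (pow_le_one₀ (norm_nonneg _) hb)

/-- **Coverings with a group of prime power order.** -/
theorem pg_main {K L : Type} [Field K] [NumberField K] [Field L] [NumberField L] [Algebra K L]
    [Algebra K Qbar] [Algebra L Qbar] [IsScalarTower K L Qbar] {p : ℕ} [hp : Fact p.Prime]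
    (θ : Qbar →+* ℂ_[p]) {m : ℕ} (hpm : ¬ p ∣ m) {ζ : 𝓞 K} (hζ : IsPrimitiveRoot ζ m) {s : ℕ}
    (S : Fin s → TowerStratum K) {d e : ℕ}
    (ρ : (Qbar ≃ₐ[K] Qbar) →* Matrix (Fin d) (Fin d) ℂ_[p]) (hρ : Continuous ρ)
    (hbot : BottomTraces ρ (θ.comp (algebraMap K Qbar)) m ζ S) {g : Qbar ≃ₐ[K] Qbar}
    (hg : FixesRoots p g) (he : cycEig (ρ g) m ≤ e) {a : ℕ}
    (hL : ∀ x : L, (g ^ p ^ a) (algebraMap L Qbar x) = algebraMap L Qbar x) {n r : ℕ}
    (ε : ∀ (i : Fin s) (F : Type) [Field F] [Fintype F], (𝓞 L →+* F) →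
      (Fin (S i).M → F) → Multiset Qbar) (hε : ∀ i, PowerSystem (p ^ n) r (ε i))
    {ℓ : ℕ} [Fact ℓ.Prime] (ι : Qbar →+* PadicAlgCl ℓ) {V : Type} [AddCommGroup V]
    [Module (PadicAlgCl ℓ) V] [Module.Finite (PadicAlgCl ℓ) V]
    (π : Representation (PadicAlgCl ℓ) (Qbar ≃ₐ[L] Qbar) V)
    (hπ : FrobeniusValues (fun σ => LinearMap.trace (PadicAlgCl ℓ) V (π σ))
      (fun F _ _ φ => ι (twistedSum m ζ (φ.comp (algebraMap (𝓞 K) (𝓞 L))) S
        (fun i => ε i F φ)))) (j : ℕ) : TateClassesLE π j (r * e) := by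
  classical
  by_contra hT
  have hpp := hp.out
  have hm : 0 < m := Nat.pos_of_ne_zero fun h => hpm (by rw [h]; exact dvd_zero p)
  -- the representation of the Galois group of `L`
  obtain ⟨g₁, hg₁, hg₁fix⟩ := pgd_lift g hg a hL
  set ρ' : (Qbar ≃ₐ[L] Qbar) →* Matrix (Fin d) (Fin d) ℂ_[p] := ρ.comp (gres K L) with hρ'def
  have hρ' : Continuous ρ' := hρ.comp pgd_cont
  have hρg₁ : ρ' g₁ = ρ g ^ p ^ a := by
    rw [hρ'def, MonoidHom.comp_apply, hg₁, map_pow]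
  obtain ⟨γ, hγ⟩ := eig_family (ρ g)
  set β : Fin d → ℂ_[p] := fun i => γ i ^ p ^ a with hβdef
  have hβ : Finset.univ.val.map β = (ρ' g₁).charpoly.roots := by
    rw [hρg₁]
    exact pgd_roots_pow (ρ g) hγ (p ^ a)
  have htr : ∀ l, (ρ' g₁ ^ l).trace = ∑ i, β i ^ l := by
    intro l
    rw [tu_mtrace, ← hβ, Multiset.map_map]
    rfl
  obtain ⟨Bn, hBn⟩ := block_TATE ι rfl π (fun F _ _ φ => twistedSum m ζ
    (φ.comp (algebraMap (𝓞 K) (𝓞 L))) S (fun i => ε i F φ)) hπ hT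
  obtain ⟨B₀, hB₀⟩ := pgd_bot (L := L) _ hbot
  set D : ℕ := Module.finrank (PadicAlgCl ℓ) V with hD
  obtain ⟨J, hJ⟩ : ∃ J : ℕ, J = D + r * d := ⟨_, rfl⟩
  -- the precision
  have hJ0 : 0 < ‖((J.factorial : ℕ) : ℂ_[p])‖ := by
    rw [norm_pos_iff]
    exact_mod_cast (Nat.factorial_pos J).ne'
  have hJ1 : ‖((J.factorial : ℕ) : ℂ_[p])‖ ≤ 1 := IsUltrametricDist.norm_natCast_le_one _ _
  obtain ⟨δ, hδ⟩ : ∃ δ : ℝ, δ = ‖((J.factorial : ℕ) : ℂ_[p])‖ / 2 := ⟨_, rfl⟩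
  have hδ0 : 0 < δ := by rw [hδ]; positivity
  have hδJ : δ < ‖((J.factorial : ℕ) : ℂ_[p])‖ := by rw [hδ]; linarith
  obtain ⟨N₀, hN₀⟩ : ∃ N₀ : ℕ, ‖(p : ℂ_[p])‖ ^ N₀ < δ := exists_pow_lt_of_lt_one hδ0 (norm_p_lt p)
  obtain ⟨N, hN⟩ : ∃ N : ℕ, N = n + N₀ + 1 := ⟨_, rfl⟩
  have hNpos : 0 < N := by omega
  have hNδ : ‖(p : ℂ_[p])‖ ^ N < δ := lt_of_le_of_lt
    (pow_le_pow_of_le_one (norm_nonneg _) (norm_p_lt p).le (by omega)) hN₀
  -- the Frobenius element
  obtain ⟨q, hq, hqB, Q, hQ, hqQ, σ, ⟨hσ1, hσ2⟩, hσ⟩ :=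
    fb_dense g₁⁻¹ _ (nbhd_mem ρ' hρ' g₁ N (fun z hz => hg₁fix N z hz) (Finset.range (J + 1)) hδ0)
      (B₀ ∪ (Bn ∪ Finset.range (p ^ N + m + 1)))
  rw [Finset.mem_union, Finset.mem_union, Finset.mem_range, not_or, not_or] at hqB
  obtain ⟨hqB0, hqB1, hqB2⟩ := hqB
  have hqN : p ^ N < q := by omega
  have hqm : m < q := by omega
  have hqF : Fact q.Prime := ⟨hq⟩
  obtain ⟨-, φ₀, -, -, -, hqN1, -, hφ₀, -⟩ := fgx_gen hpp hqN hQ hqQ hσ hσ2
  obtain ⟨hq1, hqn⟩ := q_norm (p := p) hNpos hqN1 hq.one_le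
  have hqδ : ‖(q : ℂ_[p]) - 1‖ < δ := lt_of_le_of_lt hq1 hNδ
  have hq11 : ‖(q : ℂ_[p]) - 1‖ < 1 := hqδ.trans (hδJ.trans_le hJ1)
  have hq0 : (q : Qbar) ≠ 0 := by exact_mod_cast hq.ne_zero
  have hinjKL : Function.Injective (algebraMap (𝓞 K) (𝓞 L)) := by
    intro x y hxy
    apply RingOfIntegers.coe_injective
    apply (algebraMap K L).injective
    exact congrArg (fun z : 𝓞 L => (z : L)) hxy
  have hφζ : IsPrimitiveRoot (φ₀ (algebraMap (𝓞 K) (𝓞 L) ζ)) m :=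
    (rs_reduce hq hm hqm (hζ.map_of_injective hinjKL) hQ hqQ φ₀ hφ₀).1
  let _ : ∀ l, Fintype (GaloisField q l) := fun l => Fintype.ofFinite _
  have hcardF : ∀ l, 1 ≤ l → Fintype.card (GaloisField q l) = q ^ l := by
    intro l hl
    rw [← Nat.card_eq_fintype_card]
    exact GaloisField.card q l (by omega)
  have hψ : ∀ l (x : 𝓞 L), ((algebraMap (ZMod q) (GaloisField q l)).comp φ₀) x = 0 ↔
      algebraMap (𝓞 L) (𝓞 Qbar) x ∈ Q := by
    intro l x
    rw [← hφ₀, RingHom.comp_apply]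
    exact map_eq_zero_iff _ (algebraMap (ZMod q) (GaloisField q l)).injective
  -- the ring and the residue map
  obtain ⟨red, hred, -⟩ := res_exists p (AlgebraicClosure (ZMod p))
  let A : Subring Qbar := ((nv ℂ_[p]).toSubring).comap θ
  let f : A →+* nv ℂ_[p] :=
    { toFun := fun x => ⟨θ x, x.2⟩
      map_one' := Subtype.ext (map_one θ)
      map_zero' := Subtype.ext (map_zero θ)
      map_mul' := fun x y => Subtype.ext (map_mul θ (x : Qbar) (y : Qbar))
      map_add' := fun x y => Subtype.ext (map_add θ (x : Qbar) (y : Qbar)) }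
  have hfA : ∀ x : A, ((f x : nv ℂ_[p]) : ℂ_[p]) = θ (x : Qbar) := fun x => rfl
  have hAn : ∀ x : A, ‖θ (x : Qbar)‖ ≤ 1 := fun x => x.2
  have hOK : ∀ x : 𝓞 K, ‖θ (algebraMap K Qbar x)‖ ≤ 1 := by
    intro x
    exact rs_ring (θ.comp (algebraMap K Qbar)) x
  have hζA : algebraMap K Qbar ζ ∈ A := hOK ζ
  have hroot : ∀ w : Qbar, w ^ p ^ n = 1 → ∃ h : w ∈ A, (red.comp f) ⟨w, h⟩ = 1 := by
    intro w hw
    have hw' : θ w ^ p ^ n = 1 := by rw [← map_pow, hw, map_one]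
    have h1 : ‖θ w‖ = 1 := tu_norm_one (pow_pos hpp.pos n) hw'
    refine ⟨h1.le, ?_⟩
    obtain ⟨κ, hκ0, hκ1, hκ⟩ := zeta_close p n
    have h2 : ‖θ w - 1‖ < 1 := by
      rw [norm_sub_rev]
      exact lt_of_le_of_lt (hκ _ hw') hκ1
    rw [RingHom.comp_apply, ← map_one red]
    exact red_eq red hred _ _ h2
  obtain ⟨E, E₀, hEE, hN1, hN0⟩ := block_LF2 hm hζ φ₀ hφζ S ε hε A (red.comp f) hζA hroot J
  -- the eigenvalues on `V`
  obtain ⟨α, hα1, M, hM, hα2⟩ := hBn q hq hqB1 Q hQ hqQ σ hσ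
  have hα : ∀ l, 1 ≤ l → ∑ i, α i ^ l = twistedSum m ζ
      (((algebraMap (ZMod q) (GaloisField q l)).comp φ₀).comp (algebraMap (𝓞 K) (𝓞 L))) S
      (fun i => ε i (GaloisField q l) ((algebraMap (ZMod q) (GaloisField q l)).comp φ₀)) :=
    fun l hl => hα1 l hl (GaloisField q l) _ (hcardF l hl) (hψ l)
  -- the traces of `ρ'`
  have hρtr : ∀ l, 1 ≤ l → l ≤ J → ‖θ (algebraMap K Qbar ((towerSum m ζ 1 1
      (((algebraMap (ZMod q) (GaloisField q l)).comp φ₀).comp (algebraMap (𝓞 K) (𝓞 L))) S :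
        𝓞 K) : K)) - ∑ i, β i ^ l‖ ≤ δ := by
    intro l hl hlJ
    have hfr : ∀ x y : 𝓞 Qbar, (y : Qbar) = (σ ^ l) x →
        y - x ^ Fintype.card (GaloisField q l) ∈ Q := by
      rw [hcardF l hl]
      exact pl_frob_pow hσ l
    have h2 := hB₀ q hq hqB0 Q hQ hqQ (GaloisField q l)
      ((algebraMap (ZMod q) (GaloisField q l)).comp φ₀) (hψ l) (σ ^ l) hfr
    beta_reduce at h2
    rw [hcardF l hl, map_pow, ← inv_pow, ← map_inv, map_pow ρ] at h2
    have h3 := hσ1 l (Finset.mem_range.mpr (by omega))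
    have h4 : ‖((q ^ l : ℕ) : ℂ_[p]) - 1‖ < δ := by
      rw [Nat.cast_pow]
      exact lt_of_le_of_lt (q_pow_norm q _) hqδ
    rw [← htr]
    have h5 : θ (algebraMap K Qbar ((towerSum m ζ 1 1
        (((algebraMap (ZMod q) (GaloisField q l)).comp φ₀).comp (algebraMap (𝓞 K) (𝓞 L))) S :
        𝓞 K) : K)) - (ρ' g₁ ^ l).trace =
        ((ρ' σ⁻¹ ^ l).trace - (ρ' g₁ ^ l).trace) - ((ρ' σ⁻¹ ^ l).trace - θ (algebraMap K Qbar
        ((towerSum m ζ 1 1 (((algebraMap (ZMod q) (GaloisField q l)).comp φ₀).comp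
          (algebraMap (𝓞 K) (𝓞 L))) S : 𝓞 K) : K))) := by ring
    rw [h5]
    exact (pg_sub _ _).trans (max_le h3.le (h2.trans h4.le))
  -- the comparison
  have hEp : NRec (fun l => (r : Qbar) * algebraMap K Qbar ((towerSum m ζ 1 1
      (((algebraMap (ZMod q) (GaloisField q l)).comp φ₀).comp (algebraMap (𝓞 K) (𝓞 L))) S :
        𝓞 K) : K)) (fun j => ((PowerSeries.coeff j (E₀ ^ r) : A) : Qbar)) J := by
    have h1 : NRec (fun l => algebraMap K Qbar ((towerSum m ζ 1 1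
        (((algebraMap (ZMod q) (GaloisField q l)).comp φ₀).comp (algebraMap (𝓞 K) (𝓞 L))) S :
          𝓞 K) : K))
        (fun j => PowerSeries.coeff j (PowerSeries.map A.subtype E₀)) J := hN0
    have h2 := nrec_pow h1 r
    rw [← map_pow] at h2
    exact h2
  obtain ⟨hcount, hnear⟩ := pg_core (r := r) (J := J) (by omega) (by omega) (fun i => θ (α i)) β
    (nrec_map θ hN1) (fun l hl _ => by
      rw [← hα l hl, map_sum]
      apply Finset.sum_congr rfl
      intro i _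
      rw [map_pow]) (nrec_map θ hEp) hδ0.le hδJ (fun l hl hlJ => by
      rw [map_mul, map_natCast, norm_mul]
      exact mul_le_one₀ (IsUltrametricDist.norm_natCast_le_one _ _) (norm_nonneg _) (hOK _))
    (fun l hl hlJ => by
      rw [map_mul, map_natCast, ← mul_sub, norm_mul]
      calc ‖(r : ℂ_[p])‖ * _ ≤ 1 * δ := mul_le_mul (IsUltrametricDist.norm_natCast_le_one _ _)
            (hρtr l hl hlJ) (norm_nonneg _) zero_le_one
        _ = δ := one_mul δ) (fun j _ => hAn _) (fun j _ => by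
      have h1 : (red.comp f) (PowerSeries.coeff j E - PowerSeries.coeff j (E₀ ^ r)) = 0 := by
        have h2 := congrArg (PowerSeries.coeff j) hEE
        rw [← map_pow, PowerSeries.coeff_map, PowerSeries.coeff_map] at h2
        rw [map_sub, h2, sub_self]
      rw [RingHom.comp_apply, red_zero_iff red hred, hfA] at h1
      rw [← map_sub]
      exact h1) (fun x => ∃ M : ℕ, 0 < M ∧ ‖x ^ M - 1‖ < 1 ∧
        ∀ k : ℕ, k.Coprime M → k % m = 1 % m → ∃ i, ‖x ^ k - β i‖ < 1) (by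
      rintro ⟨M, hM, h1, -⟩
      rw [zero_pow hM.ne', zero_sub, norm_neg, norm_one] at h1
      exact lt_irrefl _ h1) (by
      rintro x y hx hy hxy ⟨M, hM, h1, h2⟩
      have h3 : ∀ k, ‖y ^ k - x ^ k‖ < 1 := by
        intro k
        rw [norm_sub_rev]
        exact pg_pow_near hx hy hxy k
      refine ⟨M, hM, ?_, ?_⟩
      · have h4 : y ^ M - 1 = (y ^ M - x ^ M) + (x ^ M - 1) := by ring
        rw [h4]
        exact (IsUltrametricDist.norm_add_le_max _ _).trans_lt (max_lt (h3 M) h1)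
      · intro k hk1 hk2
        obtain ⟨i, hi⟩ := h2 k hk1 hk2
        refine ⟨i, ?_⟩
        have h4 : y ^ k - β i = (y ^ k - x ^ k) + (x ^ k - β i) := by ring
        rw [h4]
        exact (IsUltrametricDist.norm_add_le_max _ _).trans_lt (max_lt (h3 k) hi))
  -- the polynomial of `V`
  set P : Qbar[X] := ∏ i, (X - Polynomial.C (α i)) with hP
  have hP0 : P ≠ 0 := (Polynomial.monic_prod_of_monic Finset.univ
    (fun i => X - Polynomial.C (α i)) fun i _ => Polynomial.monic_X_sub_C _).ne_zero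
  have hProot : ∀ y, P.eval y = 0 → ∃ i, α i = y := by
    intro y hy
    rw [hP, Polynomial.eval_prod, Finset.prod_eq_zero_iff] at hy
    obtain ⟨i, -, hi⟩ := hy
    refine ⟨i, ?_⟩
    rw [Polynomial.eval_sub, Polynomial.eval_X, Polynomial.eval_C, sub_eq_zero] at hi
    exact hi.symm
  obtain ⟨w, hw⟩ := exists_prim (pow_pos hpp.pos n)
  have hcoef : ∀ L' : IntermediateField ℚ Qbar, algebraMap K Qbar ζ ∈ L' → w ∈ L' →
      ∀ i, P.coeff i ∈ L' := by
    intro L' h1 h2 i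
    have h3 : ∀ l, (if l = 0 then (0 : Qbar) else ∑ i, α i ^ l) ∈ L' := by
      intro l
      split_ifs with hl
      · exact zero_mem L'
      · rw [hα l (by omega)]
        refine pg_twisted_mem m ζ _ S _ L'.toSubring h1 fun i x w' hw' => ?_
        have h4 := ((hε i).1 (GaloisField q l) _ x).2 w' hw'
        have : NeZero (p ^ n) := ⟨(pow_pos hpp.pos n).ne'⟩
        obtain ⟨t, -, ht⟩ := hw.eq_pow_of_pow_eq_one h4
        rw [← ht]
        exact pow_mem h2 t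
    let sL : ℕ → L' := fun l => ⟨_, h3 l⟩
    have hf : (npoly D sL).map (algebraMap L' Qbar) = P := by
      rw [npoly_map]
      exact npoly_family α _ fun l hl => if_neg (by omega)
    rw [← hf, Polynomial.coeff_map]
    exact ((npoly D sL).coeff i).2
  have hzm : algebraMap K Qbar ζ ^ m = 1 := by
    have h1 := congrArg (emb K) hζ.pow_eq_one
    rw [map_pow, map_one] at h1
    exact h1
  -- the conjugates of the eigenvalues in question are congruent to eigenvalues of `ρ' g₁`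
  have hsmall : ∀ i, α i ^ M = ((q : Qbar) ^ M) ^ j → ∃ M' : ℕ, 0 < M' ∧
      ‖θ (α i) ^ M' - 1‖ < 1 ∧ ∀ k : ℕ, k.Coprime M' → k % m = 1 % m →
        ∃ i', ‖θ (α i) ^ k - β i'‖ < 1 := by
    intro i hi
    obtain ⟨μ, hμ⟩ : ∃ μ : Qbar, μ = α i / (q : Qbar) ^ j := ⟨_, rfl⟩
    have hαμ : α i = (q : Qbar) ^ j * μ := by
      rw [hμ, mul_div_cancel₀ _ (pow_ne_zero _ hq0)]
    have hμM : μ ^ M = 1 := by
      rw [hμ, div_pow, hi, ← pow_mul, ← pow_mul, mul_comm M j,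
        div_self (pow_ne_zero _ hq0)]
    have hPi : P.eval (α i) = 0 := by
      rw [hP, Polynomial.eval_prod]
      apply Finset.prod_eq_zero (Finset.mem_univ i)
      rw [Polynomial.eval_sub, Polynomial.eval_X, Polynomial.eval_C, sub_self]
    obtain ⟨M', hM', h1, h2⟩ := block_CONJ2 θ hpm hzm hw.pow_eq_one P hcoef
      (q := q) (j := j) hq11 hM hμM (by rw [← hαμ]; exact hPi)
    rw [← hαμ] at h1 h2
    refine ⟨M', hM', h1, ?_⟩
    intro k hk1 hk2
    obtain ⟨y, hy, h3⟩ := h2 k hk1 hk2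
    obtain ⟨i', rfl⟩ := hProot y hy
    have h4 : ‖θ (α i)‖ = 1 := by
      have h5 : ‖θ (α i) ^ M'‖ = 1 := by
        have h6 : θ (α i) ^ M' = (θ (α i) ^ M' - 1) + 1 := by ring
        rw [h6, IsUltrametricDist.norm_add_eq_max_of_norm_ne_norm (by rw [norm_one]; exact h1.ne),
          norm_one, max_eq_right h1.le]
      rw [norm_pow] at h5
      exact (pow_eq_one_iff_of_nonneg (norm_nonneg _) hM'.ne').mp h5
    have h5 : ‖θ (α i')‖ = 1 := by
      have h6 : θ (α i') = (θ (α i') - θ (α i) ^ k) + θ (α i) ^ k := by ring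
      have h7 : ‖θ (α i) ^ k‖ = 1 := by rw [norm_pow, h4, one_pow]
      rw [h6, IsUltrametricDist.norm_add_eq_max_of_norm_ne_norm (by rw [h7]; exact h3.ne),
        h7, max_eq_right h3.le]
    obtain ⟨i'', h6⟩ := hnear i' h5
    refine ⟨i'', ?_⟩
    have h7 : θ (α i) ^ k - β i'' = (θ (α i') - β i'') - (θ (α i') - θ (α i) ^ k) := by ring
    rw [h7]
    exact (pg_sub _ _).trans_lt (max_lt h6 h3)
  -- the counting
  have hle1 : (Finset.univ.filter fun i => α i ^ M = ((q : Qbar) ^ M) ^ j).card ≤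
      (Finset.univ.filter fun i => ∃ M' : ℕ, 0 < M' ∧ ‖θ (α i) ^ M' - 1‖ < 1 ∧
        ∀ k : ℕ, k.Coprime M' → k % m = 1 % m → ∃ i', ‖θ (α i) ^ k - β i'‖ < 1).card := by
    apply Finset.card_le_card
    intro i hi
    rw [Finset.mem_filter] at hi ⊢
    exact ⟨hi.1, hsmall i hi.2⟩
  have hle2 : (Finset.univ.filter fun i => ∃ M' : ℕ, 0 < M' ∧ ‖β i ^ M' - 1‖ < 1 ∧
      ∀ k : ℕ, k.Coprime M' → k % m = 1 % m → ∃ i', ‖β i ^ k - β i'‖ < 1).card ≤ e := by
    refine le_trans (le_of_eq ?_) ((block_POW2 (ρ g) m a).trans he)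
    rw [← hρg₁]
    unfold cycEig
    have h1 : ∀ x, x ∈ (ρ' g₁).charpoly.roots ↔ ∃ i, β i = x := by
      intro x
      rw [← hβ, Multiset.mem_map]
      constructor
      · rintro ⟨i, -, hi⟩
        exact ⟨i, hi⟩
      · rintro ⟨i, hi⟩
        exact ⟨i, Finset.mem_univ_val i, hi⟩
    have h2 : ∀ (Z : ℂ_[p] → Prop), (∃ y' ∈ (ρ' g₁).charpoly.roots, Z y') ↔ ∃ i, Z (β i) := by
      intro Z
      constructor
      · rintro ⟨y', h3, h4⟩
        obtain ⟨i, rfl⟩ := (h1 y').mp h3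
        exact ⟨i, h4⟩
      · rintro ⟨i, h3⟩
        exact ⟨β i, (h1 _).mpr ⟨i, rfl⟩, h3⟩
    simp only [h2]
    rw [← hβ, Multiset.filter_map, Multiset.card_map]
    rfl
  rw [hcount] at hle1
  exact absurd (lt_of_lt_of_le hα2 (hle1.trans (Nat.mul_le_mul_left r hle2))) (lt_irrefl _)

end Pool.Agent.PG
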