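import Pool.Agent.Lib_helper61.PG.Defs

/-!
# Congruent systems of eigenvalues: definitions
-/

set_option autoImplicit false

namespace Pool.Agent.PG

open NumberField Pool.Agent.TT Pool.Agent.KT

/-- A system of eigenvalues on the affine space with `M` coordinates over the residue fields of
`L`: for all finite fields `F` over a residue field of `L` and all points `x` over `F` a multiset of
algebraic numbers, such that for all homomorphisms `u : F → F'` (also the Frobenius automorphism)
the multiset at the point `u x` over `F'` consists of the `k`-th powers, `k = [F' : F]`. (These are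
the eigenvalues of Frobenius at `x` for any constructible sheaf.) -/
def FrobSystem {L : Type} [Field L] {M : ℕ}
    (ε : ∀ (F : Type) [Field F] [Fintype F], (𝓞 L →+* F) → (Fin M → F) → Multiset Qbar) : Prop :=
  ∀ (F F' : Type) [Field F] [Fintype F] [Field F'] [Fintype F'] (φ : 𝓞 L →+* F) (u : F →+* F')
    (k : ℕ), Fintype.card F' = Fintype.card F ^ k → ∀ x : Fin M → F,
      ε F' (u.comp φ) (fun i => u (x i)) = (ε F φ x).map (· ^ k)

/-- The sum over `i` of the coefficient `c i` times the sum of the eigenvalues in `ε i x`, where `x`
runs over all points over `F` of the affine space with `M i` coordinates. -/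
noncomputable def sysSum {F : Type} [Fintype F] {s : ℕ} (M : Fin s → ℕ) (c : Fin s → ℤ)
    (ε : ∀ i, (Fin (M i) → F) → Multiset Qbar) : Qbar :=
  ∑ i, (c i : Qbar) * ∑ x : Fin (M i) → F, (ε i x).sum

end Pool.Agent.PG
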