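import Pool.Agent.Lib_helper50.PG.LF2
import Pool.Agent.Lib_helper89.PG.CDefs

/-!
# The Euler products of congruent systems of eigenvalues
-/

set_option autoImplicit false

namespace Pool.Agent.PG

open NumberField Polynomial Function
open Pool.Agent.TT Pool.Agent.TB Pool.Agent.TF Pool.Agent.RF Pool.Agent.TU Pool.Agent.KT Pool.Agent.AP

theorem logD_multi3 {B : Type} [CommRing B] {l : ℕ} (hl : 0 < l) (ω : Multiset B) :
    LogD (fun j => if l ∣ j then (l : B) * (ω.map (· ^ (j / l))).sum else 0)
      (ω.map fun w => 1 - PowerSeries.C w * PowerSeries.X ^ l).prod := by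
  have h := logD_multi hl (1 : B) ω
  simp only [one_mul, one_pow] at h
  exact h

/-- One orbit. -/
theorem hasE2_single3 {B k : Type} [CommRing B] [CommRing k] {red : B →+* k} {r l : ℕ} (hl : 0 < l)
    (ω ω₀ : Multiset B) (h1 : ω.map red = r • ω₀.map red) :
    HasE2 red r (fun j => if l ∣ j then (l : B) * (ω.map (· ^ (j / l))).sum else 0)
      (fun j => if l ∣ j then (l : B) * (ω₀.map (· ^ (j / l))).sum else 0) := by
  refine ⟨_, _, logD_multi3 hl ω, logD_multi3 hl ω₀, ?_⟩
  have h2 : ∀ ω : Multiset B, PowerSeries.map red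
      (ω.map fun w => 1 - PowerSeries.C w * PowerSeries.X ^ l).prod =
      ((ω.map red).map fun z => 1 - PowerSeries.C z * PowerSeries.X ^ l).prod := by
    intro ω
    rw [map_multiset_prod, Multiset.map_map, Multiset.map_map]
    congr 1
    apply Multiset.map_congr rfl
    intro w _
    rw [Function.comp_apply, Function.comp_apply, map_sub, map_one, map_mul, map_pow,
      PowerSeries.map_C, PowerSeries.map_X]
  rw [h2, h2, h1, Multiset.map_nsmul, Multiset.prod_nsmul]

/-- The sums of two systems of eigenvalues over the fixed points of the powers of a permutation. -/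
theorem block_ORB3 {B k : Type} [CommRing B] [CommRing k] (red : B →+* k) (r : ℕ) {X : Type}
    [Fintype X] [DecidableEq X] (f : X → X) (hf : Injective f) (ω ω₀ : X → Multiset B)
    (hω : ∀ x, ω (f x) = ω x) (hω₀ : ∀ x, ω₀ (f x) = ω₀ x)
    (h1 : ∀ x, (ω x).map red = r • (ω₀ x).map red) :
    HasE2 red r (fun l => ∑ x, if f^[l] x = x then
        ((ω x).map (· ^ (l / minimalPeriod f x))).sum else 0)
      (fun l => ∑ x, if f^[l] x = x then ((ω₀ x).map (· ^ (l / minimalPeriod f x))).sum else 0) := by
  classical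
  have hper : ∀ x, x ∈ periodicPts f := fun x => hf.mem_periodicPts x
  have hpos : ∀ x, 0 < minimalPeriod f x := fun x => minimalPeriod_pos_of_mem_periodicPts (hper x)
  have hω₀i : ∀ (i : ℕ) (x : X), ω₀ (f^[i] x) = ω₀ x := by
    intro i
    induction i with
    | zero => intro x; rfl
    | succ i ih => intro x; rw [iterate_succ_apply', hω₀, ih]
  have hωi : ∀ (i : ℕ) (x : X), ω (f^[i] x) = ω x := by
    intro i
    induction i with
    | zero => intro x; rfl
    | succ i ih => intro x; rw [iterate_succ_apply', hω, ih]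
  have hli : ∀ (i : ℕ) (x : X), minimalPeriod f (f^[i] x) = minimalPeriod f x := fun i x =>
    minimalPeriod_apply_iterate (hper x) i
  let g : X → Finset X := fun x => (Finset.range (minimalPeriod f x)).image fun i => f^[i] x
  have hg : ∀ x y, y ∈ g x ↔ ∃ n, f^[n] x = y := by
    intro x y
    constructor
    · intro h
      obtain ⟨i, -, hi⟩ := Finset.mem_image.mp h
      exact ⟨i, hi⟩
    · rintro ⟨n, rfl⟩
      refine Finset.mem_image.mpr ⟨n % minimalPeriod f x,
        Finset.mem_range.mpr (Nat.mod_lt _ (hpos x)), ?_⟩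
      exact iterate_mod_minimalPeriod_eq
  have hgg : ∀ x y, y ∈ g x → g y = g x := by
    intro x y hy
    obtain ⟨i, rfl⟩ := (hg x y).mp hy
    ext z
    rw [hg, hg]
    constructor
    · rintro ⟨n, rfl⟩
      exact ⟨n + i, iterate_add_apply f n i x⟩
    · rintro ⟨n, rfl⟩
      have h1 : i ≤ minimalPeriod f x * i := Nat.le_mul_of_pos_left i (hpos x)
      refine ⟨n + (minimalPeriod f x * i - i), ?_⟩
      rw [← iterate_add_apply, add_assoc, Nat.sub_add_cancel h1, iterate_add_apply]
      congr 1
      exact ((isPeriodicPt_minimalPeriod f x).mul_const i)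
  have hgs : ∀ x, x ∈ g x := fun x => (hg x x).mpr ⟨0, rfl⟩
  refine hasE2_congr (s := fun r => ∑ y ∈ Finset.univ.image g, ∑ x with g x = y,
    if f^[r] x = x then ((ω x).map (· ^ (r / minimalPeriod f x))).sum else 0)
    (s₀ := fun r => ∑ y ∈ Finset.univ.image g, ∑ x with g x = y,
    if f^[r] x = x then ((ω₀ x).map (· ^ (r / minimalPeriod f x))).sum else 0) (fun r _ => ?_) (fun r _ => ?_) ?_
  · exact Finset.sum_fiberwise_of_maps_to (fun x _ => Finset.mem_image_of_mem g (Finset.mem_univ x)) _
  · exact Finset.sum_fiberwise_of_maps_to (fun x _ => Finset.mem_image_of_mem g (Finset.mem_univ x)) _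
  · apply hasE2_sum
    intro y hy
    obtain ⟨x₀, -, rfl⟩ := Finset.mem_image.mp hy
    have h2' : (Finset.univ.filter fun x => g x = g x₀) = g x₀ := by
      ext x
      rw [Finset.mem_filter]
      constructor
      · rintro ⟨-, h⟩
        rw [← h]
        exact hgs x
      · intro h
        exact ⟨Finset.mem_univ _, hgg x₀ x h⟩
    have h5 : (g x₀).card = minimalPeriod f x₀ := by
      rw [Finset.card_image_of_injOn, Finset.card_range]
      intro i hi j hj hij
      rw [Finset.coe_range] at hi hj
      exact iterate_injOn_Iio_minimalPeriod hi hj hij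
    have h3 : ∀ (r i : ℕ), f^[r] (f^[i] x₀) = f^[i] x₀ ↔ minimalPeriod f x₀ ∣ r := by
      intro r i
      rw [← hli i x₀, ← isPeriodicPt_iff_minimalPeriod_dvd]
      rfl
    refine hasE2_congr (fun r _ => ?_) (fun r _ => ?_)
      (hasE2_single3 (hpos x₀) (ω x₀) (ω₀ x₀) (h1 x₀))
    · rw [h2']
      have h2 : ∀ x ∈ g x₀, (if f^[r] x = x then
          ((ω x).map (· ^ (r / minimalPeriod f x))).sum else 0) =
          if minimalPeriod f x₀ ∣ r then
            ((ω x₀).map (· ^ (r / minimalPeriod f x₀))).sum else 0 := by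
        intro x hx
        obtain ⟨i, rfl⟩ := (hg x₀ x).mp hx
        rw [hωi, hli]
        by_cases h4 : minimalPeriod f x₀ ∣ r
        · rw [if_pos ((h3 r i).mpr h4), if_pos h4]
        · rw [if_neg (fun h => h4 ((h3 r i).mp h)), if_neg h4]
      rw [Finset.sum_congr rfl h2, Finset.sum_const, h5, nsmul_eq_mul]
      split_ifs
      · rfl
      · rw [mul_zero]
    · rw [h2']
      have h2 : ∀ x ∈ g x₀, (if f^[r] x = x then
          ((ω₀ x).map (· ^ (r / minimalPeriod f x))).sum else 0) =
          if minimalPeriod f x₀ ∣ r then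
            ((ω₀ x₀).map (· ^ (r / minimalPeriod f x₀))).sum else 0 := by
        intro x hx
        obtain ⟨i, rfl⟩ := (hg x₀ x).mp hx
        rw [hω₀i, hli]
        by_cases h4 : minimalPeriod f x₀ ∣ r
        · rw [if_pos ((h3 r i).mpr h4), if_pos h4]
        · rw [if_neg (fun h => h4 ((h3 r i).mp h)), if_neg h4]
      rw [Finset.sum_congr rfl h2, Finset.sum_const, h5, nsmul_eq_mul]
      split_ifs
      · rfl
      · rw [mul_zero]

section

variable {q : ℕ} [Fact q.Prime] [∀ l, Fintype (GaloisField q l)]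

theorem omg3_spec {L : Type} [Field L] {D M : ℕ} (hD : 0 < D) (φ₀ : 𝓞 L →+* ZMod q)
    {ε : ∀ (F : Type) [Field F] [Fintype F], (𝓞 L →+* F) → (Fin M → F) → Multiset Qbar}
    (hε : FrobSystem ε) {r : ℕ} (hr : 0 < r) (e : GaloisField q r →+* GaloisField q D)
    {z : Fin M → GaloisField q r} {x : Fin M → GaloisField q D} (hx : ∀ i, e (z i) = x i) :
    ε (GaloisField q r) ((algebraMap (ZMod q) (GaloisField q r)).comp φ₀) z =
      (omg hD φ₀ ε x).map (· ^ (r / minimalPeriod (frob q D M) x)) := by
  have hl := lf2_pos x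
  have hlr := lf2_dvd hr e hx
  have hx' := (lf2_pt hD x).choose_spec.choose_spec
  unfold omg
  generalize (lf2_pt hD x).choose_spec.choose = z' at hx' ⊢
  generalize (lf2_pt hD x).choose = e' at hx' ⊢
  generalize minimalPeriod (frob q D M) x = l at *
  obtain ⟨u, hu⟩ := lf2_factor e' e (fun y => l2_range e (by
    rw [lf2_card hr, ← map_pow]
    congr 1
    obtain ⟨t, rfl⟩ := hlr
    rw [pow_mul, ← lf2_card hl]
    exact FiniteField.pow_card_pow t y))
  have hz : (fun i => u (z' i)) = z := by
    funext i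
    apply e.injective
    rw [hu, hx', hx]
  have h2 := hε (GaloisField q l) (GaloisField q r)
    ((algebraMap (ZMod q) (GaloisField q l)).comp φ₀) u (r / l) (by
      rw [lf2_card hr, lf2_card hl, ← pow_mul, Nat.mul_div_cancel' hlr]) z'
  have h3 : u.comp ((algebraMap (ZMod q) (GaloisField q l)).comp φ₀) =
      (algebraMap (ZMod q) (GaloisField q r)).comp φ₀ := by
    rw [← RingHom.comp_assoc]
    congr 1
    exact RingHom.ext_zmod _ _
  rw [hz, h3] at h2
  exact h2

theorem omg3_frob {L : Type} [Field L] {D M : ℕ} (hD : 0 < D) (φ₀ : 𝓞 L →+* ZMod q)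
    {ε : ∀ (F : Type) [Field F] [Fintype F], (𝓞 L →+* F) → (Fin M → F) → Multiset Qbar}
    (hε : FrobSystem ε) (x : Fin M → GaloisField q D) :
    omg hD φ₀ ε (frob q D M x) = omg hD φ₀ ε x := by
  have hl := lf2_pos x
  have hfin : x ∈ periodicPts (frob q D M) :=
    Function.Injective.mem_periodicPts (frob q D M).injective x
  have hx' := (lf2_pt hD x).choose_spec.choose_spec
  have h1 := omg3_spec hD φ₀ hε hl ((frobenius (GaloisField q D) q).comp (lf2_pt hD x).choose)
    (z := (lf2_pt hD x).choose_spec.choose) (x := frob q D M x) (fun i => by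
      rw [RingHom.comp_apply, hx', frobenius_def, frob_apply])
  rw [minimalPeriod_apply hfin, Nat.div_self hl] at h1
  simp only [pow_one, Multiset.map_id'] at h1
  exact h1.symm

open Classical in
/-- The sum over the points of the small field as a sum over the points of the large field. -/
theorem lf3_sum {D M r : ℕ} (hr : 0 < r) (e : GaloisField q r →+* GaloisField q D)
    (E : (Fin M → GaloisField q r) → Qbar) (E' : (Fin M → GaloisField q D) → Qbar)
    (hE : ∀ z x, (∀ i, e (z i) = x i) → E z = E' x) :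
    (∑ z : Fin M → GaloisField q r, E z) =
      ∑ x : Fin M → GaloisField q D, if (frob q D M)^[r] x = x then E' x else 0 := by
  rw [← Finset.sum_filter]
  apply Finset.sum_bij (fun z _ => fun i => e (z i))
  · intro z _
    rw [Finset.mem_filter]
    refine ⟨Finset.mem_univ _, ?_⟩
    funext i
    rw [frob_iter, ← map_pow, ← lf2_card hr, FiniteField.pow_card]
  · intro z _ z' _ h
    funext i
    exact e.injective (congrFun h i)
  · intro x hx
    rw [Finset.mem_filter] at hx
    have h1 : ∀ i, ∃ z, e z = x i := by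
      intro i
      apply l2_range
      rw [lf2_card hr, ← frob_iter, hx.2]
    choose z hz using h1
    exact ⟨z, Finset.mem_univ _, funext hz⟩
  · intro z _
    exact hE z (fun i => e (z i)) (fun _ => rfl)

end

open Classical in
/-- **The Euler products of congruent systems.** -/
theorem block_LF3 {K L : Type} [Field K] [Field L] {q : ℕ} [Fact q.Prime]
    [∀ l, Fintype (GaloisField q l)] (φ₀ : 𝓞 L →+* ZMod q) (φK : 𝓞 K →+* ZMod q) {s : ℕ}
    (M : Fin s → ℕ) (c : Fin s → ℤ) {r : ℕ}
    (ε : ∀ (i : Fin s) (F : Type) [Field F] [Fintype F], (𝓞 L →+* F) →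
      (Fin (M i) → F) → Multiset Qbar) (hε : ∀ i, FrobSystem (ε i))
    (ε₀ : ∀ (i : Fin s) (F : Type) [Field F] [Fintype F], (𝓞 K →+* F) →
      (Fin (M i) → F) → Multiset Qbar) (hε₀ : ∀ i, FrobSystem (ε₀ i)) (B : Subring Qbar)
    {k : Type} [CommRing k] (red : B →+* k)
    (hB : ∀ i l (x : Fin (M i) → GaloisField q l), ∀ w ∈ ε i (GaloisField q l)
      ((algebraMap (ZMod q) (GaloisField q l)).comp φ₀) x, w ∈ B)
    (hB₀ : ∀ i l (x : Fin (M i) → GaloisField q l), ∀ w ∈ ε₀ i (GaloisField q l)
      ((algebraMap (ZMod q) (GaloisField q l)).comp φK) x, w ∈ B)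
    (hred : ∀ i l (x : Fin (M i) → GaloisField q l), (ε i (GaloisField q l)
      ((algebraMap (ZMod q) (GaloisField q l)).comp φ₀) x).map
        (fun w => if h : w ∈ B then red ⟨w, h⟩ else 0) =
      r • (ε₀ i (GaloisField q l) ((algebraMap (ZMod q) (GaloisField q l)).comp φK) x).map
        (fun w => if h : w ∈ B then red ⟨w, h⟩ else 0)) (J : ℕ) :
    ∃ E E₀ : PowerSeries B, PowerSeries.map red E = PowerSeries.map red E₀ ^ r ∧
      NRec (fun l => sysSum M c
          (fun i => ε i (GaloisField q l) ((algebraMap (ZMod q) (GaloisField q l)).comp φ₀)))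
        (fun j => ((PowerSeries.coeff j E : B) : Qbar)) J ∧
      NRec (fun l => sysSum M c
          (fun i => ε₀ i (GaloisField q l) ((algebraMap (ZMod q) (GaloisField q l)).comp φK)))
        (fun j => ((PowerSeries.coeff j E₀ : B) : Qbar)) J := by
  have hD : 0 < J.factorial := J.factorial_pos
  let tb : Qbar → B := fun w => if h : w ∈ B then ⟨w, h⟩ else 0
  have htb : ∀ w ∈ B, ((tb w : B) : Qbar) = w := by
    intro w hw
    have h2 : tb w = ⟨w, hw⟩ := dif_pos hw
    rw [h2]
  have hrtb : ∀ w, red (tb w) = if h : w ∈ B then red ⟨w, h⟩ else 0 := by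
    intro w
    by_cases h : w ∈ B
    · rw [dif_pos h]
      congr 1
      exact dif_pos h
    · rw [dif_neg h]
      have h2 : tb w = 0 := dif_neg h
      rw [h2, map_zero]
  let ω : ∀ i, (Fin (M i) → GaloisField q J.factorial) → Multiset B := fun i x =>
    (omg hD φ₀ (ε i) x).map tb
  let ω₀ : ∀ i, (Fin (M i) → GaloisField q J.factorial) → Multiset B := fun i x =>
    (omg hD φK (ε₀ i) x).map tb
  have hor : ∀ i, HasE2 red r
      (fun l => ∑ x, if (frob q J.factorial (M i))^[l] x = x then
          ((ω i x).map (· ^ (l / minimalPeriod (frob q J.factorial (M i)) x))).sum else 0)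
      (fun l => ∑ x, if (frob q J.factorial (M i))^[l] x = x then
          ((ω₀ i x).map (· ^ (l / minimalPeriod (frob q J.factorial (M i)) x))).sum else 0) := by
    intro i
    apply block_ORB3 red r (frob q J.factorial (M i)) (frob q J.factorial (M i)).injective
      (ω i) (ω₀ i) (fun x => ?_) (fun x => ?_) (fun x => ?_)
    · change (omg hD φ₀ (ε i) _).map tb = _
      rw [omg3_frob hD φ₀ (hε i)]
    · change (omg hD φK (ε₀ i) _).map tb = _
      rw [omg3_frob hD φK (hε₀ i)]
    · change ((omg hD φ₀ (ε i) x).map tb).map red = r • ((omg hD φK (ε₀ i) x).map tb).map red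
      rw [Multiset.map_map, Multiset.map_map]
      have h1 : (red ∘ tb) = fun w => if h : w ∈ B then red ⟨w, h⟩ else 0 := by
        funext w
        exact hrtb w
      rw [h1]
      exact hred i _ _
  obtain ⟨E, E₀, h1, h2, h3⟩ := hasE2_sum Finset.univ
    (fun i _ => hasE2_zsmul (hor i) (c i))
  have hhom : ∀ l, 1 ≤ l → l ≤ J →
      Nonempty (GaloisField q l →+* GaloisField q J.factorial) := by
    intro l hl hlJ
    obtain ⟨e'⟩ : Nonempty (GaloisField q l →ₐ[ZMod q] GaloisField q J.factorial) := by
      apply FiniteField.nonempty_algHom_of_finrank_dvd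
      rw [GaloisField.finrank q (by omega), GaloisField.finrank q hD.ne']
      exact Nat.dvd_factorial hl hlJ
    exact ⟨e'.toRingHom⟩
  have h4 : ∀ (t : ℕ) (s : Multiset Qbar), (∀ w ∈ s, w ∈ B) →
      (s.map (· ^ t)).sum = ((((s.map tb).map (· ^ t)).sum : B) : Qbar) := by
    intro t s
    induction s using Multiset.induction_on with
    | empty => intro _; rfl
    | cons a s ih =>
      intro h
      rw [Multiset.map_cons, Multiset.sum_cons, Multiset.map_cons, Multiset.map_cons,
        Multiset.sum_cons, Subring.coe_add, Subring.coe_pow,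
        htb a (h a (Multiset.mem_cons_self a s)),
        ih fun w hw => h w (Multiset.mem_cons_of_mem hw)]
  refine ⟨E, E₀, h3, lf2_nrec h1 ?_, lf2_nrec h2 ?_⟩
  · intro l hl hlJ
    obtain ⟨e⟩ := hhom l hl hlJ
    unfold sysSum
    rw [AddSubmonoidClass.coe_finsetSum]
    apply Finset.sum_congr rfl
    intro i _
    rw [Subring.coe_mul, lf3_sum hl e _
      (fun x => ((omg hD φ₀ (ε i) x).map
        (· ^ (l / minimalPeriod (frob q J.factorial (M i)) x))).sum)
      (fun z x hx => by
        beta_reduce
        rw [omg3_spec hD φ₀ (hε i) hl e hx]), AddSubmonoidClass.coe_finsetSum]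
    refine congrArg₂ (· * ·) (by simp) (Finset.sum_congr rfl ?_)
    intro x _
    split_ifs
    · exact h4 _ _ (hB i _ _)
    · rfl
  · intro l hl hlJ
    obtain ⟨e⟩ := hhom l hl hlJ
    unfold sysSum
    rw [AddSubmonoidClass.coe_finsetSum]
    apply Finset.sum_congr rfl
    intro i _
    rw [Subring.coe_mul, lf3_sum hl e _
      (fun x => ((omg hD φK (ε₀ i) x).map
        (· ^ (l / minimalPeriod (frob q J.factorial (M i)) x))).sum)
      (fun z x hx => by
        beta_reduce
        rw [omg3_spec hD φK (hε₀ i) hl e hx]), AddSubmonoidClass.coe_finsetSum]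
    refine congrArg₂ (· * ·) (by simp) (Finset.sum_congr rfl ?_)
    intro x _
    split_ifs
    · exact h4 _ _ (hB₀ i _ _)
    · rfl

end Pool.Agent.PG
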