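import Pool.Agent.Lib_helper89.PG.Asm
import Pool.Agent.Lib_helper89.PG.LF3

/-!
# Congruent systems of eigenvalues: the assembly
-/

set_option autoImplicit false

namespace Pool.Agent.PG

open NumberField Topology Polynomial
open Pool.Agent.TT Pool.Agent.TB Pool.Agent.TF Pool.Agent.RF Pool.Agent.TBL Pool.Agent.TU
open Pool.Agent.KT Pool.Agent.KP Pool.Agent.AP

/-- A root of unity is the product of one of order prime to `p` and one of `p`-power order. -/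
theorem pgc_split {A : Type} [Field A] {p M n : ℕ} (hp : p.Prime) (hM : ¬ p ∣ M) {x w : A}
    (hx : x ^ (M * p ^ n) = 1) (hw : IsPrimitiveRoot w (p ^ n)) :
    ∃ (ξ : A) (u : ℕ), ξ ^ M = 1 ∧ x = ξ * w ^ u := by
  have hM0 : 0 < M := Nat.pos_of_ne_zero fun h => hM (by rw [h]; exact dvd_zero p)
  have hpn : 0 < p ^ n := pow_pos hp.pos n
  have hne : NeZero (p ^ n) := ⟨hpn.ne'⟩
  have hcop : Nat.Coprime M (p ^ n) :=
    (Nat.Coprime.pow_left n ((Nat.Prime.coprime_iff_not_dvd hp).mpr hM)).symm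
  have hx0 : x ≠ 0 := by
    intro h0
    rw [h0, zero_pow (Nat.mul_pos hM0 hpn).ne'] at hx
    exact zero_ne_one hx
  have hb : (M : ℤ) * M.gcdA (p ^ n) + ((p ^ n : ℕ) : ℤ) * M.gcdB (p ^ n) = 1 := by
    rw [← Nat.gcd_eq_gcd_ab, hcop]
    rfl
  set a : ℤ := M.gcdA (p ^ n) with ha
  set b : ℤ := M.gcdB (p ^ n) with hb'
  have hη : ((x ^ M) ^ a) ^ p ^ n = 1 := by
    rw [← zpow_natCast ((x ^ M) ^ a), ← zpow_mul, mul_comm a, zpow_mul, zpow_natCast, ← pow_mul,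
      hx, one_zpow]
  obtain ⟨u, -, hu⟩ := hw.eq_pow_of_pow_eq_one hη
  refine ⟨(x ^ p ^ n) ^ b, u, ?_, ?_⟩
  · rw [← zpow_natCast ((x ^ p ^ n) ^ b), ← zpow_mul, mul_comm b, zpow_mul, zpow_natCast,
      ← pow_mul, mul_comm (p ^ n), hx, one_zpow]
  · rw [hu]
    have h1 : x = x ^ ((M : ℤ) * a + ((p ^ n : ℕ) : ℤ) * b) := by rw [hb, zpow_one]
    nth_rewrite 1 [h1]
    rw [zpow_add₀ hx0, zpow_mul, zpow_mul, zpow_natCast, zpow_natCast, mul_comm]

/-- **Congruent families.** -/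
theorem pg_cong {K L : Type} [Field K] [NumberField K] [Field L] [NumberField L] [Algebra K L]
    [Algebra K Qbar] [Algebra L Qbar] [IsScalarTower K L Qbar] {p : ℕ} [hp : Fact p.Prime]
    (θ : Qbar →+* ℂ_[p]) {s : ℕ} (M : Fin s → ℕ) (c : Fin s → ℤ)
    (ε₀ : ∀ (i : Fin s) (F : Type) [Field F] [Fintype F], (𝓞 K →+* F) →
      (Fin (M i) → F) → Multiset Qbar) (hε₀ : ∀ i, FrobSystem (ε₀ i))
    (hint : ∀ (i : Fin s) (F : Type) [Field F] [Fintype F] (φ : 𝓞 K →+* F) (x : Fin (M i) → F),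
      ∀ w ∈ ε₀ i F φ x, ‖θ w‖ ≤ 1) {d e : ℕ}
    (ρ : (Qbar ≃ₐ[K] Qbar) →* Matrix (Fin d) (Fin d) ℂ_[p]) (hρ : Continuous ρ)
    (hbot : AtFrobenius fun σ F _ _ φ =>
      ‖(ρ σ⁻¹).trace - θ (sysSum M c fun i => ε₀ i F φ)‖ ≤ ‖(Fintype.card F : ℂ_[p]) - 1‖)
    {g : Qbar ≃ₐ[K] Qbar} (hg : FixesRoots p g) {m : ℕ} (hpm : ¬ p ∣ m) (he : cycEig (ρ g) m ≤ e)
    {a : ℕ} (hL : ∀ x : L, (g ^ p ^ a) (algebraMap L Qbar x) = algebraMap L Qbar x) {n r : ℕ}
    (ε : ∀ (i : Fin s) (F : Type) [Field F] [Fintype F], (𝓞 L →+* F) →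
      (Fin (M i) → F) → Multiset Qbar) (hε : ∀ i, FrobSystem (ε i))
    (hcong : ∀ (i : Fin s) (F : Type) [Field F] [Fintype F] (φ : 𝓞 L →+* F) (x : Fin (M i) → F),
      Multiset.Rel (fun w w₀ => ‖θ w - θ w₀‖ < 1) (ε i F φ x)
        (r • ε₀ i F (φ.comp (algebraMap (𝓞 K) (𝓞 L))) x))
    (hfield : ∀ (F : Type) [Field F] [Fintype F] (φ : 𝓞 L →+* F), (sysSum M c fun i => ε i F φ) ∈
      IntermediateField.adjoin ℚ {z : Qbar | z ^ (m * p ^ n) = 1})
    {ℓ : ℕ} [Fact ℓ.Prime] (ι : Qbar →+* PadicAlgCl ℓ) {V : Type} [AddCommGroup V]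
    [Module (PadicAlgCl ℓ) V] [Module.Finite (PadicAlgCl ℓ) V]
    (π : Representation (PadicAlgCl ℓ) (Qbar ≃ₐ[L] Qbar) V)
    (hπ : FrobeniusValues (fun σ => LinearMap.trace (PadicAlgCl ℓ) V (π σ))
      (fun F _ _ φ => ι (sysSum M c fun i => ε i F φ))) (j : ℕ) :
    TateClassesLE π j (r * e) := by
  classical
  by_contra hT
  have hpp := hp.out
  have hm : 0 < m := Nat.pos_of_ne_zero fun h => hpm (by rw [h]; exact dvd_zero p)
  -- the representation of the Galois group of `L`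
  obtain ⟨g₁, hg₁, hg₁fix⟩ := pgd_lift g hg a hL
  set ρ' : (Qbar ≃ₐ[L] Qbar) →* Matrix (Fin d) (Fin d) ℂ_[p] := ρ.comp (gres K L) with hρ'def
  have hρ' : Continuous ρ' := hρ.comp pgd_cont
  have hρg₁ : ρ' g₁ = ρ g ^ p ^ a := by
    rw [hρ'def, MonoidHom.comp_apply, hg₁, map_pow]
  obtain ⟨γ, hγ⟩ := eig_family (ρ g)
  set β : Fin d → ℂ_[p] := fun i => γ i ^ p ^ a with hβdef
  have hβ : Finset.univ.val.map β = (ρ' g₁).charpoly.roots := by
    rw [hρg₁]
    exact pgd_roots_pow (ρ g) hγ (p ^ a)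
  have htr : ∀ l, (ρ' g₁ ^ l).trace = ∑ i, β i ^ l := by
    intro l
    rw [tu_mtrace, ← hβ, Multiset.map_map]
    rfl
  obtain ⟨Bn, hBn⟩ := block_TATE ι rfl π (fun F _ _ φ => sysSum M c fun i => ε i F φ) hπ hT
  obtain ⟨B₀, hB₀⟩ := pgd_bot (L := L) _ hbot
  set D : ℕ := Module.finrank (PadicAlgCl ℓ) V with hD
  obtain ⟨J, hJ⟩ : ∃ J : ℕ, J = D + r * d := ⟨_, rfl⟩
  -- the precision
  have hJ0 : 0 < ‖((J.factorial : ℕ) : ℂ_[p])‖ := by
    rw [norm_pos_iff]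
    exact_mod_cast (Nat.factorial_pos J).ne'
  have hJ1 : ‖((J.factorial : ℕ) : ℂ_[p])‖ ≤ 1 := IsUltrametricDist.norm_natCast_le_one _ _
  obtain ⟨δ, hδ⟩ : ∃ δ : ℝ, δ = ‖((J.factorial : ℕ) : ℂ_[p])‖ / 2 := ⟨_, rfl⟩
  have hδ0 : 0 < δ := by rw [hδ]; positivity
  have hδJ : δ < ‖((J.factorial : ℕ) : ℂ_[p])‖ := by rw [hδ]; linarith
  obtain ⟨N₀, hN₀⟩ : ∃ N₀ : ℕ, ‖(p : ℂ_[p])‖ ^ N₀ < δ := exists_pow_lt_of_lt_one hδ0 (norm_p_lt p)
  obtain ⟨N, hN⟩ : ∃ N : ℕ, N = n + N₀ + 1 := ⟨_, rfl⟩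
  have hNpos : 0 < N := by omega
  have hNδ : ‖(p : ℂ_[p])‖ ^ N < δ := lt_of_le_of_lt
    (pow_le_pow_of_le_one (norm_nonneg _) (norm_p_lt p).le (by omega)) hN₀
  -- the Frobenius element
  obtain ⟨q, hq, hqB, Q, hQ, hqQ, σ, ⟨hσ1, hσ2⟩, hσ⟩ :=
    fb_dense g₁⁻¹ _ (nbhd_mem ρ' hρ' g₁ N (fun z hz => hg₁fix N z hz) (Finset.range (J + 1)) hδ0)
      (B₀ ∪ (Bn ∪ Finset.range (p ^ N + m + 1)))
  rw [Finset.mem_union, Finset.mem_union, Finset.mem_range, not_or, not_or] at hqB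
  obtain ⟨hqB0, hqB1, hqB2⟩ := hqB
  have hqN : p ^ N < q := by omega
  have hqm : m < q := by omega
  have hqF : Fact q.Prime := ⟨hq⟩
  obtain ⟨-, φ₀, -, -, -, hqN1, -, hφ₀, -⟩ := fgx_gen hpp hqN hQ hqQ hσ hσ2
  obtain ⟨hq1, hqn⟩ := q_norm (p := p) hNpos hqN1 hq.one_le
  have hqδ : ‖(q : ℂ_[p]) - 1‖ < δ := lt_of_le_of_lt hq1 hNδ
  have hq11 : ‖(q : ℂ_[p]) - 1‖ < 1 := hqδ.trans (hδJ.trans_le hJ1)
  have hq0 : (q : Qbar) ≠ 0 := by exact_mod_cast hq.ne_zero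
  obtain ⟨φK, hφK⟩ : ∃ φK : 𝓞 K →+* ZMod q, φK = φ₀.comp (algebraMap (𝓞 K) (𝓞 L)) := ⟨_, rfl⟩
  have hcomp : ∀ l, ((algebraMap (ZMod q) (GaloisField q l)).comp φ₀).comp
      (algebraMap (𝓞 K) (𝓞 L)) = (algebraMap (ZMod q) (GaloisField q l)).comp φK := by
    intro l
    rw [hφK, RingHom.comp_assoc]
  let _ : ∀ l, Fintype (GaloisField q l) := fun l => Fintype.ofFinite _
  have hcardF : ∀ l, 1 ≤ l → Fintype.card (GaloisField q l) = q ^ l := by
    intro l hl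
    rw [← Nat.card_eq_fintype_card]
    exact GaloisField.card q l (by omega)
  have hψ : ∀ l (x : 𝓞 L), ((algebraMap (ZMod q) (GaloisField q l)).comp φ₀) x = 0 ↔
      algebraMap (𝓞 L) (𝓞 Qbar) x ∈ Q := by
    intro l x
    rw [← hφ₀, RingHom.comp_apply]
    exact map_eq_zero_iff _ (algebraMap (ZMod q) (GaloisField q l)).injective
  -- the ring and the residue map
  obtain ⟨red, hred, -⟩ := res_exists p (AlgebraicClosure (ZMod p))
  let A : Subring Qbar := ((nv ℂ_[p]).toSubring).comap θ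
  let f : A →+* nv ℂ_[p] :=
    { toFun := fun x => ⟨θ x, x.2⟩
      map_one' := Subtype.ext (map_one θ)
      map_zero' := Subtype.ext (map_zero θ)
      map_mul' := fun x y => Subtype.ext (map_mul θ (x : Qbar) (y : Qbar))
      map_add' := fun x y => Subtype.ext (map_add θ (x : Qbar) (y : Qbar)) }
  have hfA : ∀ x : A, ((f x : nv ℂ_[p]) : ℂ_[p]) = θ (x : Qbar) := fun x => rfl
  have hAn : ∀ x : A, ‖θ (x : Qbar)‖ ≤ 1 := fun x => x.2
  have hB₀' : ∀ i l (x : Fin (M i) → GaloisField q l), ∀ w ∈ ε₀ i (GaloisField q l)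
      ((algebraMap (ZMod q) (GaloisField q l)).comp φK) x, w ∈ A :=
    fun i l x w hw => hint i _ _ x w hw
  have hOK : ∀ l, ‖θ (sysSum M c
      (fun i => ε₀ i (GaloisField q l) ((algebraMap (ZMod q) (GaloisField q l)).comp φK)))‖ ≤ 1 := by
    intro l
    have h1 : sysSum M c (fun i => ε₀ i (GaloisField q l)
        ((algebraMap (ZMod q) (GaloisField q l)).comp φK)) ∈ A := by
      unfold sysSum
      apply sum_mem
      intro i _
      apply mul_mem (intCast_mem A _)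
      apply sum_mem
      intro x _
      exact multiset_sum_mem _ (hB₀' i l x)
    exact h1
  have hcong' : ∀ i l (x : Fin (M i) → GaloisField q l), Multiset.Rel
      (fun w w₀ => ‖θ w - θ w₀‖ < 1) (ε i (GaloisField q l)
        ((algebraMap (ZMod q) (GaloisField q l)).comp φ₀) x)
      (r • ε₀ i (GaloisField q l) ((algebraMap (ZMod q) (GaloisField q l)).comp φK) x) := by
    intro i l x
    rw [← hcomp]
    exact hcong i _ _ x
  have hr' : ∀ (t : Multiset Qbar) (w : Qbar), w ∈ r • t → w ∈ t :=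
    fun t w hw => Multiset.mem_of_mem_nsmul hw
  have hB' : ∀ i l (x : Fin (M i) → GaloisField q l), ∀ w ∈ ε i (GaloisField q l)
      ((algebraMap (ZMod q) (GaloisField q l)).comp φ₀) x, w ∈ A := by
    intro i l x w hw
    obtain ⟨w₀, hw₀, h1⟩ := Multiset.exists_mem_of_rel_of_mem (hcong' i l x) hw
    have h2 : θ w = (θ w - θ w₀) + θ w₀ := by ring
    show ‖θ w‖ ≤ 1
    rw [h2]
    exact (IsUltrametricDist.norm_add_le_max _ _).trans
      (max_le h1.le (hB₀' i l x w₀ (hr' _ _ hw₀)))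
  have hred' : ∀ i l (x : Fin (M i) → GaloisField q l), (ε i (GaloisField q l)
      ((algebraMap (ZMod q) (GaloisField q l)).comp φ₀) x).map
        (fun w => if h : w ∈ A then (red.comp f) ⟨w, h⟩ else 0) =
      r • (ε₀ i (GaloisField q l) ((algebraMap (ZMod q) (GaloisField q l)).comp φK) x).map
        (fun w => if h : w ∈ A then (red.comp f) ⟨w, h⟩ else 0) := by
    intro i l x
    rw [← Multiset.map_nsmul, ← Multiset.rel_eq, Multiset.rel_map]
    refine (hcong' i l x).mono ?_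
    intro w hw w₀ hw₀ h1
    have h2 := hB' i l x w hw
    have h3 := hB₀' i l x w₀ (hr' _ _ hw₀)
    rw [dif_pos h2, dif_pos h3]
    exact red_eq red hred _ _ h1
  obtain ⟨E, E₀, hEE, hN1, hN0⟩ := block_LF3 φ₀ φK M c ε hε ε₀ hε₀ A (red.comp f) hB' hB₀'
    hred' J
  -- the eigenvalues on `V`
  obtain ⟨α, hα1, M₁, hM, hα2⟩ := hBn q hq hqB1 Q hQ hqQ σ hσ
  have hα : ∀ l, 1 ≤ l → ∑ i, α i ^ l = sysSum M c
      (fun i => ε i (GaloisField q l) ((algebraMap (ZMod q) (GaloisField q l)).comp φ₀)) :=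
    fun l hl => hα1 l hl (GaloisField q l) _ (hcardF l hl) (hψ l)
  -- the traces of `ρ'`
  have hρtr : ∀ l, 1 ≤ l → l ≤ J → ‖θ (sysSum M c
      (fun i => ε₀ i (GaloisField q l) ((algebraMap (ZMod q) (GaloisField q l)).comp φK))) - ∑ i, β i ^ l‖ ≤ δ := by
    intro l hl hlJ
    have hfr : ∀ x y : 𝓞 Qbar, (y : Qbar) = (σ ^ l) x →
        y - x ^ Fintype.card (GaloisField q l) ∈ Q := by
      rw [hcardF l hl]
      exact pl_frob_pow hσ l
    have h2 := hB₀ q hq hqB0 Q hQ hqQ (GaloisField q l)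
      ((algebraMap (ZMod q) (GaloisField q l)).comp φ₀) (hψ l) (σ ^ l) hfr
    beta_reduce at h2
    rw [hcardF l hl, map_pow, ← inv_pow, ← map_inv, map_pow ρ, hcomp] at h2
    have h3 := hσ1 l (Finset.mem_range.mpr (by omega))
    have h4 : ‖((q ^ l : ℕ) : ℂ_[p]) - 1‖ < δ := by
      rw [Nat.cast_pow]
      exact lt_of_le_of_lt (q_pow_norm q _) hqδ
    rw [← htr]
    have h5 : θ (sysSum M c
      (fun i => ε₀ i (GaloisField q l) ((algebraMap (ZMod q) (GaloisField q l)).comp φK))) - (ρ' g₁ ^ l).trace =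
        ((ρ' σ⁻¹ ^ l).trace - (ρ' g₁ ^ l).trace) - ((ρ' σ⁻¹ ^ l).trace - θ (sysSum M c
      (fun i => ε₀ i (GaloisField q l) ((algebraMap (ZMod q) (GaloisField q l)).comp φK)))) := by ring
    rw [h5]
    exact (pg_sub _ _).trans (max_le h3.le (h2.trans h4.le))
  -- the comparison
  have hEp : NRec (fun l => (r : Qbar) * sysSum M c
      (fun i => ε₀ i (GaloisField q l) ((algebraMap (ZMod q) (GaloisField q l)).comp φK)))
      (fun j => ((PowerSeries.coeff j (E₀ ^ r) : A) : Qbar)) J := by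
    have h1 : NRec (fun l => sysSum M c
        (fun i => ε₀ i (GaloisField q l) ((algebraMap (ZMod q) (GaloisField q l)).comp φK)))
        (fun j => PowerSeries.coeff j (PowerSeries.map A.subtype E₀)) J := hN0
    have h2 := nrec_pow h1 r
    rw [← map_pow] at h2
    exact h2
  obtain ⟨hcount, hnear⟩ := pg_core (r := r) (J := J) (by omega) (by omega) (fun i => θ (α i)) β
    (nrec_map θ hN1) (fun l hl _ => by
      rw [← hα l hl, map_sum]
      apply Finset.sum_congr rfl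
      intro i _
      rw [map_pow]) (nrec_map θ hEp) hδ0.le hδJ (fun l hl hlJ => by
      rw [map_mul, map_natCast, norm_mul]
      exact mul_le_one₀ (IsUltrametricDist.norm_natCast_le_one _ _) (norm_nonneg _) (hOK l))
    (fun l hl hlJ => by
      rw [map_mul, map_natCast, ← mul_sub, norm_mul]
      calc ‖(r : ℂ_[p])‖ * _ ≤ 1 * δ := mul_le_mul (IsUltrametricDist.norm_natCast_le_one _ _)
            (hρtr l hl hlJ) (norm_nonneg _) zero_le_one
        _ = δ := one_mul δ) (fun j _ => hAn _) (fun j _ => by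
      have h1 : (red.comp f) (PowerSeries.coeff j E - PowerSeries.coeff j (E₀ ^ r)) = 0 := by
        have h2 := congrArg (PowerSeries.coeff j) hEE
        rw [← map_pow, PowerSeries.coeff_map, PowerSeries.coeff_map] at h2
        rw [map_sub, h2, sub_self]
      rw [RingHom.comp_apply, red_zero_iff red hred, hfA] at h1
      rw [← map_sub]
      exact h1) (fun x => ∃ M : ℕ, 0 < M ∧ ‖x ^ M - 1‖ < 1 ∧
        ∀ k : ℕ, k.Coprime M → k % m = 1 % m → ∃ i, ‖x ^ k - β i‖ < 1) (by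
      rintro ⟨M, hM, h1, -⟩
      rw [zero_pow hM.ne', zero_sub, norm_neg, norm_one] at h1
      exact lt_irrefl _ h1) (by
      rintro x y hx hy hxy ⟨M, hM, h1, h2⟩
      have h3 : ∀ k, ‖y ^ k - x ^ k‖ < 1 := by
        intro k
        rw [norm_sub_rev]
        exact pg_pow_near hx hy hxy k
      refine ⟨M, hM, ?_, ?_⟩
      · have h4 : y ^ M - 1 = (y ^ M - x ^ M) + (x ^ M - 1) := by ring
        rw [h4]
        exact (IsUltrametricDist.norm_add_le_max _ _).trans_lt (max_lt (h3 M) h1)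
      · intro k hk1 hk2
        obtain ⟨i, hi⟩ := h2 k hk1 hk2
        refine ⟨i, ?_⟩
        have h4 : y ^ k - β i = (y ^ k - x ^ k) + (x ^ k - β i) := by ring
        rw [h4]
        exact (IsUltrametricDist.norm_add_le_max _ _).trans_lt (max_lt (h3 k) hi))
  -- the polynomial of `V`
  set P : Qbar[X] := ∏ i, (X - Polynomial.C (α i)) with hP
  have hP0 : P ≠ 0 := (Polynomial.monic_prod_of_monic Finset.univ
    (fun i => X - Polynomial.C (α i)) fun i _ => Polynomial.monic_X_sub_C _).ne_zero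
  have hProot : ∀ y, P.eval y = 0 → ∃ i, α i = y := by
    intro y hy
    rw [hP, Polynomial.eval_prod, Finset.prod_eq_zero_iff] at hy
    obtain ⟨i, -, hi⟩ := hy
    refine ⟨i, ?_⟩
    rw [Polynomial.eval_sub, Polynomial.eval_X, Polynomial.eval_C, sub_eq_zero] at hi
    exact hi.symm
  obtain ⟨w, hw⟩ := exists_prim (pow_pos hpp.pos n)
  obtain ⟨zm, hzm⟩ := exists_prim hm
  have hcoef : ∀ L' : IntermediateField ℚ Qbar, zm ∈ L' → w ∈ L' → ∀ i, P.coeff i ∈ L' := by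
    intro L' h1 h2 i
    have hle : IntermediateField.adjoin ℚ {z : Qbar | z ^ (m * p ^ n) = 1} ≤ L' := by
      rw [IntermediateField.adjoin_le_iff]
      intro z hz
      obtain ⟨ξ, u, h5, h6⟩ := pgc_split hpp hpm (n := n) (x := z) hz hw
      have : NeZero m := ⟨hm.ne'⟩
      obtain ⟨t, -, ht⟩ := hzm.eq_pow_of_pow_eq_one h5
      rw [SetLike.mem_coe, h6, ← ht]
      exact mul_mem (pow_mem h1 t) (pow_mem h2 u)
    have h3 : ∀ l, (if l = 0 then (0 : Qbar) else ∑ i, α i ^ l) ∈ L' := by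
      intro l
      split_ifs with hl
      · exact zero_mem L'
      · rw [hα l (by omega)]
        exact hle (hfield _ _)
    let sL : ℕ → L' := fun l => ⟨_, h3 l⟩
    have hf : (npoly D sL).map (algebraMap L' Qbar) = P := by
      rw [npoly_map]
      exact npoly_family α _ fun l hl => if_neg (by omega)
    rw [← hf, Polynomial.coeff_map]
    exact ((npoly D sL).coeff i).2
  -- the conjugates of the eigenvalues in question are congruent to eigenvalues of `ρ' g₁`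
  have hsmall : ∀ i, α i ^ M₁ = ((q : Qbar) ^ M₁) ^ j → ∃ M' : ℕ, 0 < M' ∧
      ‖θ (α i) ^ M' - 1‖ < 1 ∧ ∀ k : ℕ, k.Coprime M' → k % m = 1 % m →
        ∃ i', ‖θ (α i) ^ k - β i'‖ < 1 := by
    intro i hi
    obtain ⟨μ, hμ⟩ : ∃ μ : Qbar, μ = α i / (q : Qbar) ^ j := ⟨_, rfl⟩
    have hαμ : α i = (q : Qbar) ^ j * μ := by
      rw [hμ, mul_div_cancel₀ _ (pow_ne_zero _ hq0)]
    have hμM : μ ^ M₁ = 1 := by
      rw [hμ, div_pow, hi, ← pow_mul, ← pow_mul, mul_comm M₁ j,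
        div_self (pow_ne_zero _ hq0)]
    have hPi : P.eval (α i) = 0 := by
      rw [hP, Polynomial.eval_prod]
      apply Finset.prod_eq_zero (Finset.mem_univ i)
      rw [Polynomial.eval_sub, Polynomial.eval_X, Polynomial.eval_C, sub_self]
    obtain ⟨M', hM', h1, h2⟩ := block_CONJ2 θ hpm hzm.pow_eq_one hw.pow_eq_one P hcoef
      (q := q) (j := j) hq11 hM hμM (by rw [← hαμ]; exact hPi)
    rw [← hαμ] at h1 h2
    refine ⟨M', hM', h1, ?_⟩
    intro k hk1 hk2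
    obtain ⟨y, hy, h3⟩ := h2 k hk1 hk2
    obtain ⟨i', rfl⟩ := hProot y hy
    have h4 : ‖θ (α i)‖ = 1 := by
      have h5 : ‖θ (α i) ^ M'‖ = 1 := by
        have h6 : θ (α i) ^ M' = (θ (α i) ^ M' - 1) + 1 := by ring
        rw [h6, IsUltrametricDist.norm_add_eq_max_of_norm_ne_norm (by rw [norm_one]; exact h1.ne),
          norm_one, max_eq_right h1.le]
      rw [norm_pow] at h5
      exact (pow_eq_one_iff_of_nonneg (norm_nonneg _) hM'.ne').mp h5
    have h5 : ‖θ (α i')‖ = 1 := by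
      have h6 : θ (α i') = (θ (α i') - θ (α i) ^ k) + θ (α i) ^ k := by ring
      have h7 : ‖θ (α i) ^ k‖ = 1 := by rw [norm_pow, h4, one_pow]
      rw [h6, IsUltrametricDist.norm_add_eq_max_of_norm_ne_norm (by rw [h7]; exact h3.ne),
        h7, max_eq_right h3.le]
    obtain ⟨i'', h6⟩ := hnear i' h5
    refine ⟨i'', ?_⟩
    have h7 : θ (α i) ^ k - β i'' = (θ (α i') - β i'') - (θ (α i') - θ (α i) ^ k) := by ring
    rw [h7]
    exact (pg_sub _ _).trans_lt (max_lt h6 h3)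
  -- the counting
  have hle1 : (Finset.univ.filter fun i => α i ^ M₁ = ((q : Qbar) ^ M₁) ^ j).card ≤
      (Finset.univ.filter fun i => ∃ M' : ℕ, 0 < M' ∧ ‖θ (α i) ^ M' - 1‖ < 1 ∧
        ∀ k : ℕ, k.Coprime M' → k % m = 1 % m → ∃ i', ‖θ (α i) ^ k - β i'‖ < 1).card := by
    apply Finset.card_le_card
    intro i hi
    rw [Finset.mem_filter] at hi ⊢
    exact ⟨hi.1, hsmall i hi.2⟩
  have hle2 : (Finset.univ.filter fun i => ∃ M' : ℕ, 0 < M' ∧ ‖β i ^ M' - 1‖ < 1 ∧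
      ∀ k : ℕ, k.Coprime M' → k % m = 1 % m → ∃ i', ‖β i ^ k - β i'‖ < 1).card ≤ e := by
    refine le_trans (le_of_eq ?_) ((block_POW2 (ρ g) m a).trans he)
    rw [← hρg₁]
    unfold cycEig
    have h1 : ∀ x, x ∈ (ρ' g₁).charpoly.roots ↔ ∃ i, β i = x := by
      intro x
      rw [← hβ, Multiset.mem_map]
      constructor
      · rintro ⟨i, -, hi⟩
        exact ⟨i, hi⟩
      · rintro ⟨i, hi⟩
        exact ⟨i, Finset.mem_univ_val i, hi⟩
    have h2 : ∀ (Z : ℂ_[p] → Prop), (∃ y' ∈ (ρ' g₁).charpoly.roots, Z y') ↔ ∃ i, Z (β i) := by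
      intro Z
      constructor
      · rintro ⟨y', h3, h4⟩
        obtain ⟨i, rfl⟩ := (h1 y').mp h3
        exact ⟨i, h4⟩
      · rintro ⟨i, h3⟩
        exact ⟨β i, (h1 _).mpr ⟨i, rfl⟩, h3⟩
    simp only [h2]
    rw [← hβ, Multiset.filter_map, Multiset.card_map]
    rfl
  rw [hcount] at hle1
  exact absurd (lt_of_lt_of_le hα2 (hle1.trans (Nat.mul_le_mul_left r hle2))) (lt_irrefl _)

end Pool.Agent.PG
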