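import Pool.Agent.Lib_helper89.PG.Cong
import Pool.Agent.Lib_helper35.PG.OneF

/-!
# Congruent systems of eigenvalues and one Frobenius element
-/

set_option autoImplicit false

namespace Pool.Agent.PG

open NumberField
open Pool.Agent.TT Pool.Agent.TF Pool.Agent.TU Pool.Agent.KT Pool.Agent.KP

/-- **Congruent families and one Frobenius element.** -/
theorem pg_cong1 {K L : Type} [Field K] [NumberField K] [Field L] [NumberField L] [Algebra K L]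
    [Algebra K Qbar] [Algebra L Qbar] [IsScalarTower K L Qbar] {p : ℕ} [Fact p.Prime]
    (θ : Qbar →+* ℂ_[p]) {s : ℕ} (M : Fin s → ℕ) (c : Fin s → ℤ)
    (ε₀ : ∀ (i : Fin s) (F : Type) [Field F] [Fintype F], (𝓞 K →+* F) →
      (Fin (M i) → F) → Multiset Qbar) (hε₀ : ∀ i, FrobSystem (ε₀ i))
    (hint : ∀ (i : Fin s) (F : Type) [Field F] [Fintype F] (φ : 𝓞 K →+* F) (x : Fin (M i) → F),
      ∀ w ∈ ε₀ i F φ x, ‖θ w‖ ≤ 1) {d e : ℕ}
    (ρ : (Qbar ≃ₐ[K] Qbar) →* Matrix (Fin d) (Fin d) ℂ_[p]) (hρ : Continuous ρ)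
    (hbot : AtFrobenius fun σ F _ _ φ =>
      ‖(ρ σ⁻¹).trace - θ (sysSum M c fun i => ε₀ i F φ)‖ ≤ ‖(Fintype.card F : ℂ_[p]) - 1‖)
    {g : Qbar ≃ₐ[K] Qbar} (hg : (FixesRoots p g ∧ PowerFixes L p g) ∨ FixesLevel L p d g) {m : ℕ}
    (hpm : ¬ p ∣ m) (he : cycEig (ρ g) m ≤ e) {n r : ℕ}
    (ε : ∀ (i : Fin s) (F : Type) [Field F] [Fintype F], (𝓞 L →+* F) →
      (Fin (M i) → F) → Multiset Qbar) (hε : ∀ i, FrobSystem (ε i))
    (hcong : ∀ (i : Fin s) (F : Type) [Field F] [Fintype F] (φ : 𝓞 L →+* F) (x : Fin (M i) → F),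
      Multiset.Rel (fun w w₀ => ‖θ w - θ w₀‖ < 1) (ε i F φ x)
        (r • ε₀ i F (φ.comp (algebraMap (𝓞 K) (𝓞 L))) x))
    (hfield : ∀ (F : Type) [Field F] [Fintype F] (φ : 𝓞 L →+* F), (sysSum M c fun i => ε i F φ) ∈
      IntermediateField.adjoin ℚ {z : Qbar | z ^ (m * p ^ n) = 1})
    {ℓ : ℕ} [Fact ℓ.Prime] (ι : Qbar →+* PadicAlgCl ℓ) {V : Type} [AddCommGroup V]
    [Module (PadicAlgCl ℓ) V] [Module.Finite (PadicAlgCl ℓ) V]
    (π : Representation (PadicAlgCl ℓ) (Qbar ≃ₐ[L] Qbar) V)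
    (hπ : FrobeniusValues (fun σ => LinearMap.trace (PadicAlgCl ℓ) V (π σ))
      (fun F _ _ φ => ι (sysSum M c fun i => ε i F φ))) (j : ℕ) :
    TateClassesLE π j (r * e) := by
  obtain ⟨g', h1, ⟨a, h2⟩, h3⟩ : ∃ g' : Qbar ≃ₐ[K] Qbar, FixesRoots p g' ∧ PowerFixes L p g' ∧
      cycEig (ρ g') m = cycEig (ρ g) m := by
    rcases hg with ⟨h1, h2⟩ | h
    · exact ⟨g, h1, h2, rfl⟩
    · exact pgof_replace ρ hρ h m
  exact pg_cong θ M c ε₀ hε₀ hint ρ hρ hbot h1 hpm (h3.le.trans he) h2 ε hε hcong hfield ι π hπ j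

end Pool.Agent.PG
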